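import Pool.Agent.Helper33.RT.HypMain

/-!
Local systems of rank two on hyperelliptic curves: loops around two ramification points suffice.
General criterion for systems of paths.
-/

namespace Pool.Agent.Helper33.RT

open Matrix

section paths

variable {G V : Type*} [Group G]

/-- **Rank two, systems of paths.** -/
theorem path_finite [Finite V] (c : V → G) (hc : Subgroup.closure (Set.range c) = ⊤)
    (Γ : Set (G →* G)) (ρ : G →* GL (Fin 2) ℂ) (S : Set (List V)) (h1 : ∀ v, [v] ∈ S)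
    (hS : ∀ l ∈ S, ∀ l' : List V, l' <:+: l → l' ∈ S)
    (h2 : ∀ u v, u ≠ v → (∃ m, u :: (m ++ [v]) ∈ S) ∨ ∃ m, v :: (m ++ [u]) ∈ S)
    (hρ : ∀ φ ∈ Γ, ∀ l ∈ S, l ≠ [] → ∀ z : ℂ,
      (ρ (φ (l.map c).prod) : Matrix (Fin 2) (Fin 2) ℂ).charpoly.IsRoot z →
        ∃ n : ℕ, 0 < n ∧ z ^ n = 1) :
    {χ : G → ℂ | ∃ φ ∈ Γ, χ = fun x => (ρ (φ x) : Matrix (Fin 2) (Fin 2) ℂ).trace}.Finite ∧
      ∀ φ ∈ Γ, ∀ x : G, IsIntegral ℤ (ρ (φ x) : Matrix (Fin 2) (Fin 2) ℂ).trace := by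
  classical
  obtain ⟨N, hN, hb⟩ := root_bound ⟨Set.range c, Set.finite_range c, hc⟩ 2 ρ
  let θ : Γ → G →* GL (Fin 2) ℂ := fun φ => ρ.comp φ.1
  have hroot : ∀ l ∈ S, l ≠ [] → ∀ i : Γ, ∀ z : ℂ,
      (θ i (l.map c).prod : Matrix (Fin 2) (Fin 2) ℂ).charpoly.IsRoot z → z ^ N = 1 :=
    fun l hl hl0 i z hz => hb _ (hρ i.1 i.2 l hl hl0) z hz
  have hgd : ∀ l ∈ S, l ≠ [] → Gd θ (l.map c).prod :=
    fun l hl hl0 => gd_of_roots hN (hroot l hl hl0)
  have hv : ∀ v, Gd θ (c v) := by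
    intro v
    have := hgd [v] (h1 v) (by simp)
    simpa using this
  have hdet : ∀ v, (fam θ (c v)).det ∈ FR Γ ∧ (fam θ (c v)⁻¹).det ∈ FR Γ := by
    intro v
    have := det_of_roots hN (hroot [v] (h1 v) (by simp))
    simpa using this
  obtain ⟨e⟩ : Nonempty (Fintype V) := ⟨Fintype.ofFinite V⟩
  let L : List G := (Finset.univ : Finset V).toList.map c
  have hmem : ∀ x, x ∈ L ↔ ∃ v, c v = x := by
    intro x
    simp [L]
  have hL : Subgroup.closure {x | x ∈ L} = ⊤ := by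
    rw [← hc]
    congr 1
    ext x
    exact hmem x
  have hd : ∀ x ∈ L, (fam θ x).det ∈ FR Γ ∧ (fam θ x⁻¹).det ∈ FR Γ := by
    intro x hx
    obtain ⟨v, rfl⟩ := (hmem x).1 hx
    exact hdet v
  have hdall := det_mem hL hd
  have hrot : ∀ x y : G, Gd θ (x * y) → Gd θ (y * x) := by
    intro x y h
    unfold Gd at *
    rwa [map_mul, Matrix.trace_mul_comm, ← map_mul]
  have hmid : ∀ (u v : V) (m : List V), u :: (m ++ [v]) ∈ S → Gd θ (c u * c v) := by
    intro u v m hm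
    by_cases hm0 : m = []
    · subst hm0
      have := hgd _ hm (by simp)
      simpa using this
    · have g1 := hgd _ hm (by simp)
      have g2 := hgd m (hS _ hm m ⟨[u], [v], by simp⟩) hm0
      have g3 := hgd (u :: m) (hS _ hm (u :: m) ⟨[], [v], by simp⟩) (by simp)
      have g4 := hgd (m ++ [v]) (hS _ hm (m ++ [v]) ⟨[u], [], by simp⟩) (by simp)
      simp only [List.map_cons, List.map_append, List.map_nil, List.prod_cons, List.prod_append,
        List.prod_nil, mul_one] at g1 g3 g4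
      rw [← mul_assoc] at g1
      exact Gd.ends hdall (hv u) g2 (hv v) g3 g4 g1
  have hpair : ∀ u v, Gd θ (c u * c v) := by
    intro u v
    by_cases huv : u = v
    · subst huv
      exact Gd.sq hdall (hv _)
    · rcases h2 u v huv with ⟨m, h⟩ | ⟨m, h⟩
      · exact hmid u v m h
      · exact hrot _ _ (hmid v u m h)
  have := criterion θ L hL hd (by
    intro x hx
    obtain ⟨v, rfl⟩ := (hmem x).1 hx
    exact hv v) (by
    intro x hx y hy
    obtain ⟨u, rfl⟩ := (hmem x).1 hx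
    obtain ⟨v, rfl⟩ := (hmem y).1 hy
    exact hpair u v)
  refine ⟨?_, fun φ hφ x => this.2 ⟨φ, hφ⟩ x⟩
  refine this.1.subset ?_
  rintro χ ⟨φ, hφ, rfl⟩
  exact ⟨⟨φ, hφ⟩, rfl⟩

end paths

section hyp

variable {n : ℕ}

/-- loops around two points -/
theorem pair_loops (hn : 2 < n) {P : HypOrb n → Prop} (hpow : ∀ y, P y → ∀ n : ℕ, 0 < n → P (y ^ n))
    (hinv : ∀ y, P y → P y⁻¹) (haut : ∀ y, P y → ∀ φ : HypOrb n ≃* HypOrb n, Ev φ → P (φ y))
    (h2 : P (lp n 0 * lp n 1)) (i j : ℕ) (hi : 0 < i) (hj : 0 < j) (hin : i < n) (hjn : j < n) :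
    P (lp n 0 * lp n i) ∧ P ((lp n 0 * lp n i) * (lp n 0 * lp n j)) := by
  have hcj : ∀ (i : ℕ) (y : HypOrb n), P y → P (lp n i * (y * lp n i)) := by
    intro i y hy
    have := haut _ hy (MulAut.conj (lp n i)) (ev_conj _)
    rwa [MulAut.conj_apply, lp_inv, mul_assoc] at this
  have h1 : ∀ j, 1 ≤ j → j < n → P (lp n 0 * lp n j) := by
    intro j hj1 hj2
    induction j, hj1 using Nat.le_induction with
    | base => exact h2
    | succ j hj ih =>
      obtain ⟨φ, k0, k1, k2, k3⟩ := exists_tw' (n := n) j (by omega)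
      have := haut _ (ih (by omega)) φ k0
      rwa [map_mul, k1, k3 0 (by omega) (by omega)] at this
  have h12 : P (lp n 0 * (lp n 1 * (lp n 0 * lp n 2))) := by
    obtain ⟨τ0, v0, a0, a1, a⟩ := exists_tw' (n := n) 0 (by omega)
    simp only [zero_add] at a0 a1 a
    have a2 := a 2 (by omega) (by omega)
    have a1' : τ0.symm (lp n 0) = lp n 0 * (lp n 1 * lp n 0) := by
      apply τ0.injective
      rw [MulEquiv.apply_symm_apply, map_mul, map_mul, a0, a1]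
      simp only [mul_assoc, lp_cancel, lp_sq, mul_one]
    have a2' : τ0.symm (lp n 2) = lp n 2 := by
      apply τ0.injective
      rw [MulEquiv.apply_symm_apply, a2]
    have := haut _ (h1 2 (by omega) (by omega)) τ0.symm v0.symm
    simpa only [map_mul, a1', a2', mul_assoc] using this
  have h1j : ∀ j, 2 ≤ j → j < n → P (lp n 0 * (lp n 1 * (lp n 0 * lp n j))) := by
    intro j hj1 hj2
    induction j, hj1 using Nat.le_induction with
    | base => exact h12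
    | succ j hj ih =>
      obtain ⟨φ, k0, k1, k2, k3⟩ := exists_tw' (n := n) j (by omega)
      have := haut _ (ih (by omega)) φ k0
      rwa [map_mul, map_mul, map_mul, k1, k3 0 (by omega) (by omega),
        k3 1 (by omega) (by omega)] at this
  have hlt : ∀ i j, 0 < i → i < j → j < n → P (lp n 0 * (lp n i * (lp n 0 * lp n j))) := by
    intro i j hi hij hjn
    induction i, hi using Nat.le_induction with
    | base => exact h1j j (by omega) hjn
    | succ i hi ih =>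
      obtain ⟨φ, k0, k1, k2, k3⟩ := exists_tw' (n := n) i (by omega)
      have := haut _ (ih (by omega)) φ k0
      rwa [map_mul, map_mul, map_mul, k1, k3 0 (by omega) (by omega),
        k3 j (by omega) (by omega)] at this
  refine ⟨h1 i hi hin, ?_⟩
  rcases lt_trichotomy i j with h | h | h
  · have := hlt i j hi h hjn
    rwa [← mul_assoc] at this
  · subst h
    have := hpow _ (h1 i hi hin) 2 two_pos
    rwa [pow_two] at this
  · have := hcj 0 _ (hinv _ (hlt j i hj h hin))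
    simpa only [_root_.mul_inv_rev, lp_inv, mul_assoc, lp_cancel, lp_sq, mul_one] using this

/-- **Rank two, hyperelliptic curves.** -/
theorem hyp_two (hn : 4 ≤ n) (ρ : evenSub n →* GL (Fin 2) ℂ)
    (hρ : ∀ y : evenSub n, IsLoopAround 2 y → ∀ z : ℂ,
      (ρ y : Matrix (Fin 2) (Fin 2) ℂ).charpoly.IsRoot z → ∃ m : ℕ, 0 < m ∧ z ^ m = 1) :
    {χ : evenSub n → ℂ | ∃ ψ : evenSub n ≃* evenSub n, IsSymmetric ψ ∧
      χ = fun y => (ρ (ψ y) : Matrix (Fin 2) (Fin 2) ℂ).trace}.Finite ∧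
    ∀ y : evenSub n, IsIntegral ℤ (ρ y : Matrix (Fin 2) (Fin 2) ℂ).trace := by
  classical
  have hn0 : 0 < n := by omega
  let Q : evenSub n → Prop := fun y => ∀ z : ℂ,
    (ρ y : Matrix (Fin 2) (Fin 2) ℂ).charpoly.IsRoot z → ∃ m : ℕ, 0 < m ∧ z ^ m = 1
  have Qpow : ∀ y, Q y → ∀ k : ℕ, 0 < k → Q (y ^ k) := by
    intro y hy k hk z hz
    rw [map_pow, Units.val_pow_eq_pow_val, ← Matrix.mem_spectrum_iff_isRoot_charpoly,
      spectrum.map_pow_of_pos _ hk] at hz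
    obtain ⟨c, hc, rfl⟩ := hz
    rw [Matrix.mem_spectrum_iff_isRoot_charpoly] at hc
    obtain ⟨m, hm, h1⟩ := hy c hc
    refine ⟨m, hm, ?_⟩
    simp only
    rw [← pow_mul, mul_comm, pow_mul, h1, one_pow]
  have Qinv : ∀ y, Q y → Q y⁻¹ := by
    intro y hy z hz
    rw [← Matrix.mem_spectrum_iff_isRoot_charpoly] at hz
    have hz0 : z ≠ 0 := by
      rintro rfl
      rw [spectrum.zero_mem_iff] at hz
      exact hz (ρ y⁻¹).isUnit
    have h1 : z⁻¹ ∈ spectrum ℂ ((ρ y : GL (Fin 2) ℂ) : Matrix (Fin 2) (Fin 2) ℂ) := by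
      have h2 := (spectrum.inv_mem_iff (R := ℂ) (r := Units.mk0 z hz0)
        (a := (ρ y⁻¹ : GL (Fin 2) ℂ))).1 (by simpa using hz)
      simpa using h2
    rw [Matrix.mem_spectrum_iff_isRoot_charpoly] at h1
    obtain ⟨m, hm, h3⟩ := hy _ h1
    refine ⟨m, hm, ?_⟩
    rwa [inv_pow, inv_eq_one] at h3
  let P : HypOrb n → Prop := fun y => ∃ h : y ∈ evenSub n, ∀ ψ : evenSub n ≃* evenSub n,
    IsSymmetric ψ → Q (ψ ⟨y, h⟩)
  have hpow : ∀ y, P y → ∀ k : ℕ, 0 < k → P (y ^ k) := by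
    rintro y ⟨h, hy⟩ k hk
    refine ⟨Subgroup.pow_mem _ h k, fun ψ hψ => ?_⟩
    have h1 := Qpow _ (hy ψ hψ) k hk
    rw [← map_pow] at h1
    exact h1
  have hinv : ∀ y, P y → P y⁻¹ := by
    rintro y ⟨h, hy⟩
    refine ⟨Subgroup.inv_mem _ h, fun ψ hψ => ?_⟩
    have h1 := Qinv _ (hy ψ hψ)
    rw [← map_inv] at h1
    exact h1
  have haut : ∀ y, P y → ∀ φ : HypOrb n ≃* HypOrb n, Ev φ → P (φ y) := by
    rintro y ⟨h, hy⟩ φ hφ
    obtain ⟨ψ₀, hψ₀⟩ := sym_of_ev hφ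
    refine ⟨(hφ y).2 h, fun ψ hψ => ?_⟩
    have h1 := hy (ψ₀.trans ψ) (IsSymmetric.comp ⟨φ, hψ₀⟩ hψ)
    have e : (⟨φ y, (hφ y).2 h⟩ : evenSub n) = ψ₀ ⟨y, h⟩ := Subtype.ext (hψ₀ ⟨y, h⟩).symm
    rw [e]
    exact h1
  have h2 : P (lp n 0 * lp n 1) := by
    rw [← take_two (by omega)]
    have h : ((List.ofFn fun i : Fin n => (pt i : HypOrb n)).take 2).prod ∈ evenSub n := by
      rw [take_two (by omega)]
      unfold lp
      rw [dif_pos hn0, dif_pos (by omega)]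
      exact pt_mul_mem _ _
    exact ⟨h, fun ψ hψ => hρ _ ⟨ψ, hψ, ⟨_, h⟩, rfl, rfl⟩⟩
  obtain ⟨N, hN, hb⟩ := root_bound ⟨Set.range (gC n hn0), Set.finite_range _, closure_gC hn0⟩ 2 ρ
  let Γ : Set (evenSub n →* evenSub n) :=
    {ψ | ∃ ψ' : evenSub n ≃* evenSub n, IsSymmetric ψ' ∧ ψ = ψ'.toMonoidHom}
  let θ : Γ → evenSub n →* GL (Fin 2) ℂ := fun φ => ρ.comp φ.1
  have hroot : ∀ y : evenSub n, P y → ∀ i : Γ, ∀ z : ℂ,
      (θ i y : Matrix (Fin 2) (Fin 2) ℂ).charpoly.IsRoot z → z ^ N = 1 := by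
    rintro y ⟨h, hy⟩ ⟨_, ψ, hψ, rfl⟩ z hz
    exact hb _ (hy ψ hψ) z hz
  have hgd : ∀ y : evenSub n, P y → Gd θ y := fun y hy => gd_of_roots hN (hroot y hy)
  have hgen : ∀ i j : Fin (n - 1), P (gC n hn0 i) ∧ P ((gC n hn0 i * gC n hn0 j : evenSub n)) := by
    intro i j
    rw [Subgroup.coe_mul, gC_coe, gC_coe]
    exact pair_loops (by omega) hpow hinv haut h2 (i.1 + 1) (j.1 + 1) (by omega) (by omega)
      (by omega) (by omega)
  let L : List (evenSub n) := (List.finRange (n - 1)).map (gC n hn0)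
  have hmem : ∀ x, x ∈ L ↔ ∃ v, gC n hn0 v = x := by
    intro x
    simp [L]
  have hL : Subgroup.closure {x | x ∈ L} = ⊤ := by
    rw [← closure_gC hn0]
    congr 1
    ext x
    exact hmem x
  have := criterion θ L hL (by
    intro x hx
    obtain ⟨v, rfl⟩ := (hmem x).1 hx
    exact det_of_roots hN (hroot _ (hgen v v).1)) (by
    intro x hx
    obtain ⟨v, rfl⟩ := (hmem x).1 hx
    exact hgd _ (hgen v v).1) (by
    intro x hx y hy
    obtain ⟨u, rfl⟩ := (hmem x).1 hx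
    obtain ⟨v, rfl⟩ := (hmem y).1 hy
    exact hgd _ (hgen u v).2)
  constructor
  · refine this.1.subset ?_
    rintro χ ⟨ψ, hψ, rfl⟩
    exact ⟨⟨ψ.toMonoidHom, ψ, hψ, rfl⟩, rfl⟩
  · intro y
    have hid : (MonoidHom.id (evenSub n)) ∈ Γ := ⟨MulEquiv.refl _, ⟨MulEquiv.refl _, fun y => rfl⟩,
      rfl⟩
    exact this.2 ⟨_, hid⟩ y

end hyp

end Pool.Agent.Helper33.RT
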