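import Pool.Agent.H2R.Stm
import Pool.Agent.Helper33.RT.Path

/-!
# The bridge from chains of loops to hyperelliptic curves

In the group of even words in the `2 g + 2` involutions `x_i` the elements `x_i x_{i+1}`, `i < 2 g`,
are a chain which generates the group; the chains which are obtained from it by twists are its images
under symmetric automorphisms.
-/

set_option autoImplicit false

namespace Pool.Agent.Helper33.RT

open Pool.Agent.H2R

variable {n : ℕ}

/-- the chain `x_i x_{i+1}`, `i < m` -/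
def cC (n m : ℕ) (h : m < n) (i : Fin m) : evenSub n :=
  ⟨pt ⟨i.1, by omega⟩ * pt ⟨i.1 + 1, by omega⟩, pt_mul_mem _ _⟩

theorem cC_coe {m : ℕ} (h : m < n) (i : Fin m) :
    ((cC n m h i : evenSub n) : HypOrb n) = lp n i.1 * lp n (i.1 + 1) := by
  unfold lp cC
  rw [dif_pos (by omega), dif_pos (by omega)]

/-- The chain generates. -/
theorem closure_cC (g : ℕ) (h : 2 * g < 2 * g + 2) :
    Subgroup.closure (Set.range (cC (2 * g + 2) (2 * g) h)) = ⊤ := by
  let n := 2 * g + 2
  let H : Subgroup (HypOrb n) :=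
    (Subgroup.closure (Set.range (cC (2 * g + 2) (2 * g) h))).map (evenSub n).subtype
  have hc : ∀ i : ℕ, i < 2 * g → lp n i * lp n (i + 1) ∈ H := by
    intro i hi
    refine ⟨cC (2 * g + 2) (2 * g) h ⟨i, hi⟩, Subgroup.subset_closure ⟨_, rfl⟩, ?_⟩
    exact cC_coe h ⟨i, hi⟩
  -- `x_0 x_i`
  have h0 : ∀ i : ℕ, i ≤ 2 * g → lp n 0 * lp n i ∈ H := by
    intro i hi
    induction i with
    | zero =>
      rw [lp_sq]
      exact H.one_mem
    | succ i ih =>
      have h1 := H.mul_mem (ih (by omega)) (hc i (by omega))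
      have e : lp n 0 * lp n i * (lp n i * lp n (i + 1)) = lp n 0 * lp n (i + 1) := by
        rw [mul_assoc, lp_cancel]
      rwa [e] at h1
  -- the initial products
  have hP : ∀ k : ℕ, k ≤ g →
      ((List.ofFn fun i : Fin n => (pt i : HypOrb n)).take (2 * k)).prod ∈ H := by
    intro k hk
    induction k with
    | zero =>
      rw [mul_zero, List.take_zero, List.prod_nil]
      exact H.one_mem
    | succ k ih =>
      have e : 2 * (k + 1) = 2 * k + 1 + 1 := by ring
      rw [e, List.prod_take_succ _ _ (by rw [List.length_ofFn]; show _ < 2 * g + 2; omega),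
        List.prod_take_succ _ _ (by rw [List.length_ofFn]; show _ < 2 * g + 2; omega),
        List.getElem_ofFn, List.getElem_ofFn, mul_assoc]
      refine H.mul_mem (ih (by omega)) ?_
      have h1 := hc (2 * k) (by omega)
      unfold lp at h1
      rw [dif_pos (show 2 * k < 2 * g + 2 by omega),
        dif_pos (show 2 * k + 1 < 2 * g + 2 by omega)] at h1
      exact h1
  have hlast : lp n (2 * g) * lp n (2 * g + 1) ∈ H := by
    have h1 := hP g le_rfl
    have h2 : ((List.ofFn fun i : Fin n => (pt i : HypOrb n)).take (2 * g + 1 + 1)).prod = 1 := by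
      rw [List.take_of_length_le (by rw [List.length_ofFn]), pt_prod]
    rw [List.prod_take_succ _ _ (by rw [List.length_ofFn]; show _ < 2 * g + 2; omega),
      List.prod_take_succ _ _ (by rw [List.length_ofFn]; show _ < 2 * g + 2; omega),
      List.getElem_ofFn, List.getElem_ofFn, mul_assoc] at h2
    have h3 := H.inv_mem h1
    rw [inv_eq_of_mul_eq_one_right h2] at h3
    unfold lp
    rw [dif_pos (show 2 * g < 2 * g + 2 by omega),
      dif_pos (show 2 * g + 1 < 2 * g + 2 by omega)]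
    exact h3
  have h0' : ∀ i : Fin n, lp n 0 * pt i ∈ H := by
    intro i
    have e : pt i = lp n i.1 := by
      unfold lp
      rw [dif_pos i.2]
    rw [e]
    by_cases hi : i.1 ≤ 2 * g
    · exact h0 _ hi
    · have hi2 : i.1 = 2 * g + 1 := by
        have : i.1 < 2 * g + 2 := i.2
        omega
      rw [hi2]
      have h1 := H.mul_mem (h0 (2 * g) le_rfl) hlast
      have e : lp n 0 * lp n (2 * g) * (lp n (2 * g) * lp n (2 * g + 1)) =
          lp n 0 * lp n (2 * g + 1) := by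
        rw [mul_assoc, lp_cancel]
      rwa [e] at h1
  have h1 : evenSub n ≤ H := by
    unfold evenSub
    rw [Subgroup.closure_le]
    rintro _ ⟨i, j, rfl⟩
    have h3 := H.mul_mem (H.inv_mem (h0' i)) (h0' j)
    rw [_root_.mul_inv_rev, pt_inv, lp_inv, mul_assoc, lp_cancel] at h3
    exact h3
  rw [eq_top_iff]
  intro y _
  obtain ⟨z, hz, hzy⟩ := h1 y.2
  have : z = y := Subtype.ext hzy
  rwa [← this]

theorem twist_map {G G' : Type*} [Group G] [Group G'] {m : ℕ} (i : Fin m) (c : Fin m → G)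
    (ψ : G →* G') : H2R.twist i (fun j => ψ (c j)) = fun j => ψ (H2R.twist i c j) := by
  funext j
  unfold H2R.twist
  split_ifs
  · rw [map_mul]
  · rw [map_mul, map_inv]
  · rfl

theorem twist_inj {G : Type*} [Group G] {m : ℕ} (i : Fin m) {c c' : Fin m → G}
    (h : H2R.twist i c = H2R.twist i c') : c = c' := by
  have hi : c i = c' i := by
    have h1 := congrFun h i
    unfold H2R.twist at h1
    rw [if_neg (by omega), if_neg (by omega), if_neg (by omega), if_neg (by omega)] at h1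
    exact h1
  funext j
  have h1 := congrFun h j
  unfold H2R.twist at h1
  split_ifs at h1
  · rw [hi] at h1
    exact mul_right_cancel h1
  · rw [hi] at h1
    exact mul_left_cancel h1
  · exact h1

theorem twist_cC {m : ℕ} (h : m < n) (i : Fin m) : ∃ ψ : evenSub n ≃* evenSub n, IsSymmetric ψ ∧
    H2R.twist i (cC n m h) = fun j => ψ (cC n m h j) := by
  obtain ⟨φ, hφ, h1, h2, h3⟩ := exists_tw' (n := n) i.1 (by omega)
  obtain ⟨ψ, hψ⟩ := sym_of_ev hφ
  refine ⟨ψ, ⟨φ, hψ⟩, ?_⟩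
  funext j
  apply Subtype.ext
  rw [hψ, cC_coe, map_mul]
  unfold H2R.twist
  split_ifs with h4 h5
  · rw [Subgroup.coe_mul, cC_coe, cC_coe, h3 j.1 (by omega) (by omega), h4, h1, mul_assoc,
      lp_cancel]
  · rw [Subgroup.coe_mul, Subgroup.coe_inv, cC_coe, cC_coe, _root_.mul_inv_rev, lp_inv, lp_inv, h5,
      h2, h3 (i.1 + 1 + 1) (by omega) (by omega)]
    simp only [mul_assoc]
  · rw [cC_coe]
    by_cases h6 : j = i
    · rw [h6, h1, h2, mul_assoc, lp_cancel]
    · have h7 : j.1 ≠ i.1 := fun h => h6 (Fin.ext h)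
      rw [h3 j.1 h7 h5, h3 (j.1 + 1) h4 (by omega)]

theorem IsSymmetric.symm {ψ : evenSub n ≃* evenSub n} (h : IsSymmetric ψ) :
    IsSymmetric ψ.symm := by
  obtain ⟨φ, hφ⟩ := h
  refine ⟨φ.symm, fun y => ?_⟩
  rw [MulEquiv.eq_symm_apply, ← hφ, MulEquiv.apply_symm_apply]

/-- The twisted chains are the images of the chain under symmetric automorphisms. -/
theorem twisted_cC {m : ℕ} (h : m < n) {c : Fin m → evenSub n}
    (hc : Twisted (cC n m h) c) : ∃ ψ : evenSub n ≃* evenSub n, IsSymmetric ψ ∧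
    c = fun j => ψ (cC n m h j) := by
  induction hc with
  | refl => exact ⟨MulEquiv.refl _, ⟨MulEquiv.refl _, fun y => rfl⟩, rfl⟩
  | @twist c' i _ ih =>
    obtain ⟨ψ, hψ, rfl⟩ := ih
    obtain ⟨τ, hτ, h1⟩ := twist_cC h i
    refine ⟨τ.trans ψ, hτ.comp hψ, ?_⟩
    have h2 := twist_map i (cC n m h) ψ.toMonoidHom
    rw [h1] at h2
    exact h2
  | @untwist c' i _ ih =>
    obtain ⟨ψ, hψ, h0⟩ := ih
    obtain ⟨τ, hτ, h1⟩ := twist_cC h i
    refine ⟨τ.symm.trans ψ, IsSymmetric.comp (IsSymmetric.symm hτ) hψ, ?_⟩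
    apply twist_inj i
    rw [h0]
    have h2 := twist_map i (cC n m h) (τ.symm.trans ψ).toMonoidHom
    rw [h1] at h2
    refine Eq.trans ?_ h2.symm
    funext j
    show ψ _ = ψ (τ.symm (τ _))
    rw [τ.symm_apply_apply]

theorem pair_next (i : ℕ) (hi : i + 1 < n) : ∃ φ : HypOrb n ≃* HypOrb n, Ev φ ∧
    φ (lp n 0 * lp n 1) = lp n i * lp n (i + 1) := by
  induction i with
  | zero => exact ⟨MulEquiv.refl _, fun y => Iff.rfl, rfl⟩
  | succ i ih =>
    obtain ⟨φ, hφ, h⟩ := ih (by omega)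
    obtain ⟨φ1, hφ1, a1, a2, a3⟩ := exists_tw' (n := n) (i + 1) (by omega)
    obtain ⟨φ2, hφ2, b1, b2, b3⟩ := exists_tw' (n := n) i (by omega)
    refine ⟨(φ.trans φ1).trans φ2, fun y => ?_, ?_⟩
    · show φ2 (φ1 (φ y)) ∈ _ ↔ _
      rw [hφ2, hφ1, hφ]
    · show φ2 (φ1 (φ _)) = _
      rw [h, map_mul, a1, a3 i (by omega) (by omega), map_mul, b1,
        b3 (i + 1 + 1) (by omega) (by omega)]

/-- The vanishing cycles of the chain are loops around two points. -/
theorem loop_of_vanishing {m : ℕ} (h : m < n) (x : evenSub n)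
    (hx : IsVanishing (cC n m h) x) : IsLoopAround 2 x := by
  obtain ⟨c', hc', i, rfl⟩ := hx
  obtain ⟨ψ, hψ, rfl⟩ := twisted_cC h hc'
  have hin : i.1 + 1 < n := by have := i.2; omega
  obtain ⟨φ, hφ, h1⟩ := pair_next (n := n) i.1 hin
  obtain ⟨τ, hτ⟩ := sym_of_ev hφ
  have h0 : lp n 0 * lp n 1 ∈ evenSub n := by
    unfold lp
    rw [dif_pos (by omega), dif_pos (by omega)]
    exact pt_mul_mem _ _
  refine ⟨τ.trans ψ, IsSymmetric.comp ⟨φ, hτ⟩ hψ, ⟨lp n 0 * lp n 1, h0⟩,
    (take_two (by omega)).symm, ?_⟩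
  show ψ _ = ψ (τ _)
  congr 1
  apply Subtype.ext
  rw [cC_coe, hτ, h1]

/-- **Rank two on hyperelliptic curves.** -/
theorem hyp_rank_two (hMain : St_Main) {g : ℕ} (hg : 2 ≤ g)
    (ρ : evenSub (2 * g + 2) →* GL (Fin 2) ℂ)
    (hρ : ∀ y, IsLoopAround 2 y → Quasi (ρ y : Matrix (Fin 2) (Fin 2) ℂ)) :
    (∀ y, Quasi (ρ y : Matrix (Fin 2) (Fin 2) ℂ)) ∧
    {χ : evenSub (2 * g + 2) → ℂ | ∃ φ : evenSub (2 * g + 2) ≃* evenSub (2 * g + 2),
      χ = fun x => (ρ (φ x) : Matrix (Fin 2) (Fin 2) ℂ).trace}.Finite ∧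
    (CRed ρ → Finite ρ.range) :=
  hMain (evenSub (2 * g + 2)) (2 * g) (cC (2 * g + 2) (2 * g) (by omega)) ρ (by omega)
    (closure_cC g (by omega)) fun x hx => hρ x (loop_of_vanishing _ x hx)

end Pool.Agent.Helper33.RT
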