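import Mathlib

/-!
Traces of words in two by two matrices over a commutative ring: the span of the products of the
sublists of a list is stable under multiplication, and the Fricke relation.
-/

namespace Pool.Agent.Helper33.RT

open Matrix

variable {S : Type*} [CommRing S]

/-- the Cayley-Hamilton relation -/
theorem mul_self_fin_two (x : Matrix (Fin 2) (Fin 2) S) :
    x * x = x.trace • x - x.det • (1 : Matrix (Fin 2) (Fin 2) S) := by
  ext i j
  fin_cases i <;> fin_cases j <;>
    simp [Matrix.mul_apply, Fin.sum_univ_two, Matrix.trace_fin_two, Matrix.det_fin_two] <;> ring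

/-- the polarised Cayley-Hamilton relation -/
theorem mul_swap_fin_two (x y : Matrix (Fin 2) (Fin 2) S) :
    x * y = x.trace • y + y.trace • x + ((x * y).trace - x.trace * y.trace) •
      (1 : Matrix (Fin 2) (Fin 2) S) - y * x := by
  ext i j
  fin_cases i <;> fin_cases j <;>
    simp [Matrix.mul_apply, Fin.sum_univ_two, Matrix.trace_fin_two] <;> ring

/-- The Fricke relation: both `tr (abc)` and `tr (ac)` are roots of a quadratic polynomial. -/
theorem fricke (a b c : Matrix (Fin 2) (Fin 2) S) :
    b.det * (a * c).trace ^ 2 +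
      ((a * b).trace * (b * c).trace - a.trace * c.trace * b.det -
        b.trace * (a * b * c).trace) * (a * c).trace +
      (a.trace ^ 2 * b.det * c.det + b.trace ^ 2 * a.det * c.det + c.trace ^ 2 * a.det * b.det +
        (a * b).trace ^ 2 * c.det + (b * c).trace ^ 2 * a.det -
        a.trace * b.trace * (a * b).trace * c.det - b.trace * c.trace * (b * c).trace * a.det -
        4 * a.det * b.det * c.det -
        (a * b * c).trace * (a.trace * (b * c).trace + c.trace * (a * b).trace -
          a.trace * b.trace * c.trace) + (a * b * c).trace ^ 2) = 0 := by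
  simp only [Matrix.mul_apply, Fin.sum_univ_two, Matrix.trace_fin_two, Matrix.det_fin_two]
  ring

section span

variable (R : Subring S)

/-- the span of the products of the sublists -/
def M (l : List (Matrix (Fin 2) (Fin 2) S)) : Submodule R (Matrix (Fin 2) (Fin 2) S) :=
  Submodule.span R {x | ∃ l' : List (Matrix (Fin 2) (Fin 2) S), l'.Sublist l ∧ x = l'.prod}

theorem mem_M {l l' : List (Matrix (Fin 2) (Fin 2) S)} (h : l'.Sublist l) : l'.prod ∈ M R l :=
  Submodule.subset_span ⟨l', h, rfl⟩

theorem M_le_cons (y : Matrix (Fin 2) (Fin 2) S) (l : List (Matrix (Fin 2) (Fin 2) S)) :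
    M R l ≤ M R (y :: l) := by
  refine Submodule.span_mono ?_
  rintro _ ⟨l', h, rfl⟩
  exact ⟨l', h.trans (List.sublist_cons_self y l), rfl⟩

theorem mul_mem_cons (y : Matrix (Fin 2) (Fin 2) S) (l : List (Matrix (Fin 2) (Fin 2) S))
    {m : Matrix (Fin 2) (Fin 2) S} (hm : m ∈ M R l) : y * m ∈ M R (y :: l) := by
  unfold M at hm
  induction hm using Submodule.span_induction with
  | mem x hx =>
    obtain ⟨l', h, rfl⟩ := hx
    rw [← List.prod_cons]
    exact mem_M R (h.cons_cons y)
  | zero =>
    rw [mul_zero]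
    exact Submodule.zero_mem _
  | add x z _ _ h1 h2 =>
    rw [mul_add]
    exact Submodule.add_mem _ h1 h2
  | smul r x _ h1 =>
    rw [mul_smul_comm]
    exact Submodule.smul_mem _ _ h1

theorem smul_mem_M {l : List (Matrix (Fin 2) (Fin 2) S)} {s : S} (hs : s ∈ R)
    {m : Matrix (Fin 2) (Fin 2) S} (hm : m ∈ M R l) : s • m ∈ M R l :=
  Submodule.smul_mem (M R l) (⟨s, hs⟩ : R) hm

/-- The span is stable under left multiplication. -/
theorem mul_mem_M (l : List (Matrix (Fin 2) (Fin 2) S)) (h1 : ∀ x ∈ l, x.trace ∈ R)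
    (h2 : ∀ x ∈ l, x.det ∈ R) (h3 : ∀ x ∈ l, ∀ y ∈ l, (x * y).trace ∈ R)
    {x m : Matrix (Fin 2) (Fin 2) S} (hx : x ∈ l) (hm : m ∈ M R l) : x * m ∈ M R l := by
  induction l generalizing x m with
  | nil => cases hx
  | cons y l ih =>
    have ih' : ∀ {x m : Matrix (Fin 2) (Fin 2) S}, x ∈ l → m ∈ M R l → x * m ∈ M R l :=
      fun {x m} hx hm => ih (fun x hx => h1 x (List.mem_cons_of_mem _ hx))
        (fun x hx => h2 x (List.mem_cons_of_mem _ hx))
        (fun x hx z hz => h3 x (List.mem_cons_of_mem _ hx) z (List.mem_cons_of_mem _ hz)) hx hm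
    have hy : y ∈ y :: l := List.mem_cons_self
    have key : ∀ m₀ ∈ M R l, ∀ x ∈ y :: l, x * m₀ ∈ M R (y :: l) ∧ x * (y * m₀) ∈ M R (y :: l) := by
      intro m₀ hm₀ x hx
      rcases List.mem_cons.1 hx with rfl | hxl
      · refine ⟨mul_mem_cons R x l hm₀, ?_⟩
        rw [← mul_assoc, mul_self_fin_two, sub_mul, smul_mul_assoc, smul_mul_assoc, one_mul]
        exact Submodule.sub_mem _ (smul_mem_M R (h1 x hy) (mul_mem_cons R x l hm₀))
          (smul_mem_M R (h2 x hy) (M_le_cons R x l hm₀))
      · have h4 := ih' hxl hm₀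
        refine ⟨M_le_cons R y l h4, ?_⟩
        rw [← mul_assoc, mul_swap_fin_two x y, sub_mul, add_mul, add_mul, smul_mul_assoc,
          smul_mul_assoc, smul_mul_assoc, one_mul, mul_assoc y x m₀]
        exact Submodule.sub_mem _ (Submodule.add_mem _ (Submodule.add_mem _
          (smul_mem_M R (h1 x hx) (mul_mem_cons R y l hm₀))
          (smul_mem_M R (h1 y hy) (M_le_cons R y l h4)))
          (smul_mem_M R (R.sub_mem (h3 x hx y hy) (R.mul_mem (h1 x hx) (h1 y hy)))
            (M_le_cons R y l hm₀))) (mul_mem_cons R y l h4)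
    rw [M] at hm
    induction hm using Submodule.span_induction with
    | mem m hm =>
      obtain ⟨l', h, rfl⟩ := hm
      cases h with
      | cons _ h => exact (key _ (mem_M R h) x hx).1
      | cons_cons _ h =>
        rw [List.prod_cons]
        exact (key _ (mem_M R h) x hx).2
    | zero =>
      rw [mul_zero]
      exact Submodule.zero_mem _
    | add a b _ _ h1 h2 =>
      rw [mul_add]
      exact Submodule.add_mem _ h1 h2
    | smul r a _ h1 =>
      rw [mul_smul_comm]
      exact Submodule.smul_mem _ _ h1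

/-- All elements of a group have traces in a subring if the products of the sublists of a list of
generators have. -/
theorem trace_mem {G : Type*} [Group G] (Θ : G →* Matrix (Fin 2) (Fin 2) S) (L : List G)
    (hL : Subgroup.closure {x | x ∈ L} = ⊤) (h1 : ∀ l : List G, l.Sublist L →
      (Θ l.prod).trace ∈ R) (h3 : ∀ x ∈ L, ∀ y ∈ L, (Θ (x * y)).trace ∈ R)
    (h2 : ∀ x ∈ L, (Θ x).det ∈ R) (h2' : ∀ x ∈ L, (Θ x⁻¹).det ∈ R) (g : G) :
    (Θ g).trace ∈ R := by
  have h0 : ∀ x ∈ L, (Θ x).trace ∈ R := by
    intro x hx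
    have := h1 [x] (List.singleton_sublist.2 hx)
    rwa [List.prod_singleton] at this
  have hstep : ∀ x ∈ L, ∀ m ∈ M R (L.map Θ), Θ x * m ∈ M R (L.map Θ) := by
    intro x hx m hm
    refine mul_mem_M R (L.map Θ) ?_ ?_ ?_ (List.mem_map_of_mem hx) hm
    · intro y hy
      obtain ⟨y', hy', rfl⟩ := List.mem_map.1 hy
      exact h0 y' hy'
    · intro y hy
      obtain ⟨y', hy', rfl⟩ := List.mem_map.1 hy
      exact h2 y' hy'
    · intro y hy z hz
      obtain ⟨y', hy', rfl⟩ := List.mem_map.1 hy
      obtain ⟨z', hz', rfl⟩ := List.mem_map.1 hz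
      rw [← map_mul]
      exact h3 y' hy' z' hz'
  have hinv : ∀ x ∈ L, ∀ m ∈ M R (L.map Θ), Θ x⁻¹ * m ∈ M R (L.map Θ) := by
    intro x hx m hm
    have e1 : Θ x * Θ x⁻¹ = 1 := by rw [← map_mul, mul_inv_cancel, map_one]
    have e2 : Θ x⁻¹ = (Θ x⁻¹).det • ((Θ x).trace • (1 : Matrix (Fin 2) (Fin 2) S) - Θ x) := by
      have e3 := congrArg (fun z => z * Θ x⁻¹) (mul_self_fin_two (Θ x))
      simp only [sub_mul, smul_mul_assoc, one_mul] at e3
      rw [mul_assoc, e1, mul_one] at e3
      have e4 : (Θ x⁻¹).det * (Θ x).det = 1 := by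
        rw [mul_comm, ← Matrix.det_mul, e1, Matrix.det_one]
      have e5 : (Θ x).trace • (1 : Matrix (Fin 2) (Fin 2) S) - Θ x = (Θ x).det • Θ x⁻¹ := by
        rw [sub_eq_iff_eq_add]
        nth_rw 3 [e3]
        abel
      rw [e5, smul_smul, e4, one_smul]
    rw [e2, smul_mul_assoc, sub_mul, smul_mul_assoc, one_mul]
    exact smul_mem_M R (h2' x hx) (Submodule.sub_mem _ (smul_mem_M R (h0 x hx) hm)
      (hstep x hx m hm))
  have hall : ∀ m ∈ M R (L.map Θ), Θ g * m ∈ M R (L.map Θ) := by
    have hg : g ∈ Subgroup.closure {x | x ∈ L} := by rw [hL]; exact Subgroup.mem_top g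
    induction hg using Subgroup.closure_induction_left with
    | one =>
      intro m hm
      rwa [map_one, one_mul]
    | mul_left x hx y _ ih =>
      intro m hm
      rw [map_mul, mul_assoc]
      exact hstep x hx _ (ih m hm)
    | inv_mul_cancel x hx y _ ih =>
      intro m hm
      rw [map_mul, mul_assoc]
      exact hinv x hx _ (ih m hm)
  have h5 : Θ g ∈ M R (L.map Θ) := by
    have := hall 1 (by
      have := mem_M R (List.nil_sublist (L.map Θ))
      rwa [List.prod_nil] at this)
    rwa [mul_one] at this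
  have h6 : ∀ m ∈ M R (L.map Θ), m.trace ∈ R := by
    intro m hm
    rw [M] at hm
    induction hm using Submodule.span_induction with
    | mem m hm =>
      obtain ⟨l', h, rfl⟩ := hm
      obtain ⟨l, hl, rfl⟩ := List.sublist_map_iff.1 h
      rw [← map_list_prod]
      exact h1 l hl
    | zero =>
      rw [Matrix.trace_zero]
      exact R.zero_mem
    | add a b _ _ h1 h2 =>
      rw [Matrix.trace_add]
      exact R.add_mem h1 h2
    | smul r a _ h1 =>
      have : (r • a).trace = (r : S) * a.trace := by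
        rw [← smul_eq_mul, ← Matrix.trace_smul]
        rfl
      rw [this]
      exact R.mul_mem r.2 h1
  exact h6 _ h5

end span

end Pool.Agent.Helper33.RT
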