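import Pool.Agent.Helper33.RT.Alg
import Pool.Agent.Helper88.ScTorsion

/-!
Families of representations of rank two with finitely many values of the traces along the paths of
a graph on a set of generators have finitely many characters.
-/

namespace Pool.Agent.Helper33.RT

open Matrix Polynomial

section ring

variable {I : Type*}

/-- functions with finitely many values, all of which are algebraic integers -/
def FR (I : Type*) : Subring (I → ℂ) where
  carrier := {f | (Set.range f).Finite ∧ ∀ i, IsIntegral ℤ (f i)}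
  mul_mem' := by
    rintro f g ⟨hf, hf'⟩ ⟨hg, hg'⟩
    refine ⟨(hf.image2 (fun x y => x * y) hg).subset ?_, fun i => (hf' i).mul (hg' i)⟩
    rintro _ ⟨i, rfl⟩
    exact ⟨f i, ⟨i, rfl⟩, g i, ⟨i, rfl⟩, rfl⟩
  one_mem' := ⟨(Set.finite_singleton (1 : ℂ)).subset (by rintro _ ⟨i, rfl⟩; rfl),
    fun i => isIntegral_one⟩
  add_mem' := by
    rintro f g ⟨hf, hf'⟩ ⟨hg, hg'⟩
    refine ⟨(hf.image2 (fun x y => x + y) hg).subset ?_, fun i => (hf' i).add (hg' i)⟩
    rintro _ ⟨i, rfl⟩
    exact ⟨f i, ⟨i, rfl⟩, g i, ⟨i, rfl⟩, rfl⟩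
  zero_mem' := ⟨(Set.finite_singleton (0 : ℂ)).subset (by rintro _ ⟨i, rfl⟩; rfl),
    fun i => isIntegral_zero⟩
  neg_mem' := by
    rintro f ⟨hf, hf'⟩
    refine ⟨(hf.image (fun x => -x)).subset ?_, fun i => (hf' i).neg⟩
    rintro _ ⟨i, rfl⟩
    exact ⟨f i, ⟨i, rfl⟩, rfl⟩

theorem mem_FR {f : I → ℂ} : f ∈ FR I ↔ (Set.range f).Finite ∧ ∀ i, IsIntegral ℤ (f i) :=
  Iff.rfl

theorem integral_quad {y a b : ℂ} (ha : IsIntegral ℤ a) (hb : IsIntegral ℤ b)
    (h : y ^ 2 + a * y + b = 0) : IsIntegral ℤ y := by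
  have h1 : IsIntegral (integralClosure ℤ ℂ) y := by
    refine ⟨X ^ 2 + (C (⟨a, ha⟩ : integralClosure ℤ ℂ) * X + C ⟨b, hb⟩), ?_, ?_⟩
    · refine Polynomial.monic_X_pow_add ?_
      refine lt_of_le_of_lt (Polynomial.degree_linear_le) ?_
      norm_num
    · simp only [eval₂_add, eval₂_pow, eval₂_X, eval₂_mul, eval₂_C]
      rw [← h, add_assoc]
      rfl
  exact isIntegral_trans (A := integralClosure ℤ ℂ) y h1

theorem mem_FR_quad {y d d' e f : I → ℂ} (hd' : d' ∈ FR I) (hdd : d' * d = 1) (he : e ∈ FR I)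
    (hf : f ∈ FR I) (h : d * y ^ 2 + e * y + f = 0) : y ∈ FR I := by
  have h1 : ∀ i, y i ^ 2 + (d' * e) i * y i + (d' * f) i = 0 := by
    intro i
    have h2 := congrFun h i
    have h3 := congrFun hdd i
    simp only [Pi.add_apply, Pi.mul_apply, Pi.pow_apply, Pi.zero_apply, Pi.one_apply] at h2 h3 ⊢
    linear_combination d' i * h2 - y i ^ 2 * h3
  have ha := (FR I).mul_mem hd' he
  have hb := (FR I).mul_mem hd' hf
  refine ⟨?_, fun i => integral_quad (ha.2 i) (hb.2 i) (h1 i)⟩
  refine ((ha.1.image2 (fun a b => (a, b)) hb.1).biUnion (t := fun p =>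
    {z : ℂ | z ^ 2 + p.1 * z + p.2 = 0}) ?_).subset ?_
  · intro p _
    have h4 : {z : ℂ | z ^ 2 + p.1 * z + p.2 = 0} ⊆
        (X ^ 2 + (C p.1 * X + C p.2) : ℂ[X]).roots.toFinset := by
      intro z hz
      rw [Finset.mem_coe, Multiset.mem_toFinset, Polynomial.mem_roots']
      refine ⟨(Polynomial.monic_X_pow_add (lt_of_le_of_lt (Polynomial.degree_linear_le)
        (by norm_num))).ne_zero, ?_⟩
      simp only [IsRoot.def, eval_add, eval_pow, eval_X, eval_mul, eval_C]
      rw [← add_assoc]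
      exact hz
    exact (Finset.finite_toSet _).subset h4
  · rintro _ ⟨i, rfl⟩
    rw [Set.mem_iUnion₂]
    exact ⟨((d' * e) i, (d' * f) i), ⟨_, ⟨i, rfl⟩, _, ⟨i, rfl⟩, rfl⟩, h1 i⟩

/-- functions which only depend on the values of given functions -/
def CL {D : Type*} (d : D → I → ℂ) : Subring (I → ℂ) where
  carrier := {f | ∀ i j, (∀ k, d k i = d k j) → f i = f j}
  mul_mem' := by
    intro f g hf hg i j h
    rw [Pi.mul_apply, Pi.mul_apply, hf i j h, hg i j h]
  one_mem' := fun i j _ => rfl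
  add_mem' := by
    intro f g hf hg i j h
    rw [Pi.add_apply, Pi.add_apply, hf i j h, hg i j h]
  zero_mem' := fun i j _ => rfl
  neg_mem' := by
    intro f hf i j h
    rw [Pi.neg_apply, Pi.neg_apply, hf i j h]

theorem mem_CL {D : Type*} (d : D → I → ℂ) (k : D) : d k ∈ CL d := fun _ _ h => h k

theorem finite_of_CL {D : Type*} [Finite D] (d : D → I → ℂ) (hd : ∀ k, (Set.range (d k)).Finite)
    {X : Type*} (χ : I → X → ℂ) (hχ : ∀ x, (fun i => χ i x) ∈ CL d) : (Set.range χ).Finite := by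
  classical
  have h1 : (Set.range fun i => fun k => d k i).Finite := by
    refine (Set.Finite.pi' hd).subset ?_
    rintro _ ⟨i, rfl⟩ k
    exact ⟨i, rfl⟩
  have h2 : ∀ i j, (fun k => d k i) = (fun k => d k j) → χ i = χ j := by
    intro i j h
    funext x
    exact hχ x i j (fun k => congrFun h k)
  refine (h1.image (Function.extend (fun i => fun k => d k i) χ fun _ => 0)).subset ?_
  rintro _ ⟨i, rfl⟩
  refine ⟨_, ⟨i, rfl⟩, ?_⟩
  exact Function.FactorsThrough.extend_apply (fun i j h => h2 i j h) _ i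

end ring

section family

variable {I G : Type*} [Group G]

/-- a family of representations as one representation over a ring of functions -/
def fam (θ : I → G →* GL (Fin 2) ℂ) : G →* Matrix (Fin 2) (Fin 2) (I → ℂ) where
  toFun g := fun a b i => (θ i g : Matrix (Fin 2) (Fin 2) ℂ) a b
  map_one' := by
    ext a b i
    rw [map_one, Units.val_one]
    fin_cases a <;> fin_cases b <;> rfl
  map_mul' g h := by
    ext a b i
    rw [map_mul, Units.val_mul, Matrix.mul_apply, Matrix.mul_apply, Finset.sum_apply]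
    rfl

theorem fam_trace (θ : I → G →* GL (Fin 2) ℂ) (g : G) :
    (fam θ g).trace = fun i => (θ i g : Matrix (Fin 2) (Fin 2) ℂ).trace := by
  funext i
  rw [Matrix.trace_fin_two, Matrix.trace_fin_two]
  rfl

theorem fam_det (θ : I → G →* GL (Fin 2) ℂ) (g : G) :
    (fam θ g).det = fun i => (θ i g : Matrix (Fin 2) (Fin 2) ℂ).det := by
  funext i
  rw [Matrix.det_fin_two, Matrix.det_fin_two]
  rfl

/-- a word is good if its traces have finitely many integral values -/
def Gd (θ : I → G →* GL (Fin 2) ℂ) (g : G) : Prop := (fam θ g).trace ∈ FR I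

theorem det_mem {θ : I → G →* GL (Fin 2) ℂ} {L : Set G} (hL : Subgroup.closure L = ⊤)
    (hd : ∀ x ∈ L, (fam θ x).det ∈ FR I ∧ (fam θ x⁻¹).det ∈ FR I) (g : G) :
    (fam θ g).det ∈ FR I ∧ (fam θ g⁻¹).det ∈ FR I := by
  have hg : g ∈ Subgroup.closure L := by rw [hL]; exact Subgroup.mem_top g
  induction hg using Subgroup.closure_induction with
  | mem x hx => exact hd x hx
  | one =>
    rw [inv_one, map_one, Matrix.det_one]
    exact ⟨(FR I).one_mem, (FR I).one_mem⟩
  | mul x y _ _ hx hy =>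
    rw [_root_.mul_inv_rev, map_mul, map_mul, Matrix.det_mul, Matrix.det_mul]
    exact ⟨(FR I).mul_mem hx.1 hy.1, (FR I).mul_mem hy.2 hx.2⟩
  | inv x _ hx =>
    rw [inv_inv]
    exact ⟨hx.2, hx.1⟩

/-- the step of the induction for three factors -/
theorem Gd.triple {θ : I → G →* GL (Fin 2) ℂ}
    (hd : ∀ g : G, (fam θ g).det ∈ FR I ∧ (fam θ g⁻¹).det ∈ FR I) {a b c : G} (ha : Gd θ a)
    (hb : Gd θ b) (hc : Gd θ c) (hab : Gd θ (a * b)) (hbc : Gd θ (b * c)) (hac : Gd θ (a * c)) :
    Gd θ (a * b * c) := by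
  have h := fricke (fam θ a) (fam θ b) (fam θ c)
  have da := (hd a).1
  have db := (hd b).1
  have dc := (hd c).1
  unfold Gd at *
  rw [map_mul] at hab hbc hac
  rw [map_mul, map_mul]
  have h4 : (4 : I → ℂ) ∈ FR I := ofNat_mem (FR I) 4
  refine mem_FR_quad (d := 1) (d' := 1) (e := -((fam θ a).trace * (fam θ b * fam θ c).trace +
      (fam θ c).trace * (fam θ a * fam θ b).trace - (fam θ a).trace * (fam θ b).trace *
        (fam θ c).trace + (fam θ b).trace * (fam θ a * fam θ c).trace))
      (f := (fam θ b).det * (fam θ a * fam θ c).trace ^ 2 +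
      ((fam θ a * fam θ b).trace * (fam θ b * fam θ c).trace - (fam θ a).trace * (fam θ c).trace *
        (fam θ b).det) * (fam θ a * fam θ c).trace +
      ((fam θ a).trace ^ 2 * (fam θ b).det * (fam θ c).det + (fam θ b).trace ^ 2 * (fam θ a).det *
        (fam θ c).det + (fam θ c).trace ^ 2 * (fam θ a).det * (fam θ b).det +
        (fam θ a * fam θ b).trace ^ 2 * (fam θ c).det + (fam θ b * fam θ c).trace ^ 2 *
        (fam θ a).det -
        (fam θ a).trace * (fam θ b).trace * (fam θ a * fam θ b).trace * (fam θ c).det -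
        (fam θ b).trace * (fam θ c).trace * (fam θ b * fam θ c).trace * (fam θ a).det -
        4 * (fam θ a).det * (fam θ b).det * (fam θ c).det)) (FR I).one_mem (one_mul 1) ?_ ?_ ?_
  · exact (FR I).neg_mem ((FR I).add_mem ((FR I).sub_mem ((FR I).add_mem ((FR I).mul_mem ha hbc)
      ((FR I).mul_mem hc hab)) ((FR I).mul_mem ((FR I).mul_mem ha hb) hc)) ((FR I).mul_mem hb hac))
  · refine (FR I).add_mem ((FR I).add_mem ((FR I).mul_mem db ((FR I).pow_mem hac 2))
      ((FR I).mul_mem ((FR I).sub_mem ((FR I).mul_mem hab hbc) ((FR I).mul_mem ((FR I).mul_mem ha hc)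
        db)) hac)) ?_
    refine (FR I).sub_mem ((FR I).sub_mem ((FR I).sub_mem ((FR I).add_mem ((FR I).add_mem
      ((FR I).add_mem ((FR I).add_mem ?_ ?_) ?_) ?_) ?_) ?_) ?_) ?_
    · exact (FR I).mul_mem ((FR I).mul_mem ((FR I).pow_mem ha 2) db) dc
    · exact (FR I).mul_mem ((FR I).mul_mem ((FR I).pow_mem hb 2) da) dc
    · exact (FR I).mul_mem ((FR I).mul_mem ((FR I).pow_mem hc 2) da) db
    · exact (FR I).mul_mem ((FR I).pow_mem hab 2) dc
    · exact (FR I).mul_mem ((FR I).pow_mem hbc 2) da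
    · exact (FR I).mul_mem ((FR I).mul_mem ((FR I).mul_mem ha hb) hab) dc
    · exact (FR I).mul_mem ((FR I).mul_mem ((FR I).mul_mem hb hc) hbc) da
    · exact (FR I).mul_mem ((FR I).mul_mem ((FR I).mul_mem h4 da) db) dc
  · rw [← h]
    ring

/-- the trace of the product of the end points -/
theorem Gd.ends {θ : I → G →* GL (Fin 2) ℂ}
    (hd : ∀ g : G, (fam θ g).det ∈ FR I ∧ (fam θ g⁻¹).det ∈ FR I) {a b c : G} (ha : Gd θ a)
    (hb : Gd θ b) (hc : Gd θ c) (hab : Gd θ (a * b)) (hbc : Gd θ (b * c))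
    (habc : Gd θ (a * b * c)) : Gd θ (a * c) := by
  have h := fricke (fam θ a) (fam θ b) (fam θ c)
  have da := (hd a).1
  have db := (hd b).1
  have dc := (hd c).1
  have db' := (hd b).2
  unfold Gd at *
  rw [map_mul] at hab hbc
  rw [map_mul, map_mul] at habc
  rw [map_mul]
  have h4 : (4 : I → ℂ) ∈ FR I := ofNat_mem (FR I) 4
  refine mem_FR_quad db' ?_ ?_ ?_ h
  · rw [← Matrix.det_mul, ← map_mul, inv_mul_cancel, map_one, Matrix.det_one]
  · exact (FR I).sub_mem ((FR I).sub_mem ((FR I).mul_mem hab hbc)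
      ((FR I).mul_mem ((FR I).mul_mem ha hc) db)) ((FR I).mul_mem hb habc)
  · refine (FR I).add_mem ((FR I).sub_mem ((FR I).sub_mem ((FR I).sub_mem ((FR I).sub_mem
      ((FR I).add_mem ((FR I).add_mem
      ((FR I).add_mem ((FR I).add_mem ?_ ?_) ?_) ?_) ?_) ?_) ?_) ?_) ?_) ?_
    · exact (FR I).mul_mem ((FR I).mul_mem ((FR I).pow_mem ha 2) db) dc
    · exact (FR I).mul_mem ((FR I).mul_mem ((FR I).pow_mem hb 2) da) dc
    · exact (FR I).mul_mem ((FR I).mul_mem ((FR I).pow_mem hc 2) da) db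
    · exact (FR I).mul_mem ((FR I).pow_mem hab 2) dc
    · exact (FR I).mul_mem ((FR I).pow_mem hbc 2) da
    · exact (FR I).mul_mem ((FR I).mul_mem ((FR I).mul_mem ha hb) hab) dc
    · exact (FR I).mul_mem ((FR I).mul_mem ((FR I).mul_mem hb hc) hbc) da
    · exact (FR I).mul_mem ((FR I).mul_mem ((FR I).mul_mem h4 da) db) dc
    · exact (FR I).mul_mem habc ((FR I).sub_mem ((FR I).add_mem ((FR I).mul_mem ha hbc)
        ((FR I).mul_mem hc hab)) ((FR I).mul_mem ((FR I).mul_mem ha hb) hc))
    · exact (FR I).pow_mem habc 2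

theorem Gd.sq {θ : I → G →* GL (Fin 2) ℂ}
    (hd : ∀ g : G, (fam θ g).det ∈ FR I ∧ (fam θ g⁻¹).det ∈ FR I) {a : G} (ha : Gd θ a) :
    Gd θ (a * a) := by
  unfold Gd at *
  rw [map_mul, mul_self_fin_two, Matrix.trace_sub, Matrix.trace_smul, Matrix.trace_smul,
    Matrix.trace_one]
  refine (FR I).sub_mem ((FR I).mul_mem ha ha) ((FR I).mul_mem (hd a).1 ?_)
  rw [Fintype.card_fin]
  exact natCast_mem (FR I) 2

/-- All products of generators are good if the generators and the products of two of them are. -/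
theorem Gd.list {θ : I → G →* GL (Fin 2) ℂ}
    (hd : ∀ g : G, (fam θ g).det ∈ FR I ∧ (fam θ g⁻¹).det ∈ FR I) {L : Set G}
    (h1 : ∀ x ∈ L, Gd θ x) (h2 : ∀ x ∈ L, ∀ y ∈ L, Gd θ (x * y)) (l : List G)
    (hl : ∀ x ∈ l, x ∈ L) : Gd θ l.prod := by
  induction hn : l.length using Nat.strong_induction_on generalizing l with
  | _ n ih =>
    match l, hl with
    | [], _ =>
      unfold Gd
      rw [List.prod_nil, map_one, Matrix.trace_one, Fintype.card_fin]
      exact natCast_mem (FR I) 2
    | [x], hl =>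
      rw [List.prod_singleton]
      exact h1 x (hl x (by simp))
    | [x, y], hl =>
      rw [List.prod_cons, List.prod_singleton]
      exact h2 x (hl x (by simp)) y (hl y (by simp))
    | x :: y :: z :: l, hl =>
      have ht := List.dropLast_concat_getLast (l := y :: z :: l) (by simp)
      set m := (y :: z :: l).dropLast with hm
      set c := (y :: z :: l).getLast (by simp) with hc
      have hmlen : m.length = l.length + 1 := by
        rw [hm, List.length_dropLast]
        simp
      rw [← ht] at hl hn ⊢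
      rw [List.length_cons, List.length_append, List.length_singleton, hmlen] at hn
      have hx : x ∈ L := hl x (by simp)
      have hcL : c ∈ L := hl c (by simp)
      have hmL : ∀ u ∈ m, u ∈ L := fun u hu => hl u (by simp [hu])
      have e : (x :: (m ++ [c])).prod = x * m.prod * c := by
        rw [List.prod_cons, List.prod_append, List.prod_singleton, mul_assoc]
      rw [e]
      refine Gd.triple hd (h1 x hx) ?_ (h1 c hcL) ?_ ?_ (h2 x hx c hcL)
      · exact ih m.length (by omega) m hmL rfl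
      · rw [← List.prod_cons]
        refine ih (x :: m).length (by rw [List.length_cons]; omega) (x :: m) ?_ rfl
        intro u hu
        rcases List.mem_cons.1 hu with rfl | hu
        · exact hx
        · exact hmL u hu
      · have e2 : m.prod * c = (m ++ [c]).prod := by
          rw [List.prod_append, List.prod_singleton]
        rw [e2]
        refine ih (m ++ [c]).length (by
          rw [List.length_append, List.length_singleton]; omega) (m ++ [c]) ?_ rfl
        intro u hu
        rcases List.mem_append.1 hu with hu | hu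
        · exact hmL u hu
        · rw [List.mem_singleton.1 hu]
          exact hcL

/-- The general criterion. -/
theorem criterion (θ : I → G →* GL (Fin 2) ℂ) (L : List G)
    (hL : Subgroup.closure {x | x ∈ L} = ⊤)
    (hd : ∀ x ∈ L, (fam θ x).det ∈ FR I ∧ (fam θ x⁻¹).det ∈ FR I)
    (h1 : ∀ x ∈ L, Gd θ x) (h2 : ∀ x ∈ L, ∀ y ∈ L, Gd θ (x * y)) :
    (Set.range fun (i : I) (g : G) => (θ i g : Matrix (Fin 2) (Fin 2) ℂ).trace).Finite ∧
      ∀ i g, IsIntegral ℤ (θ i g : Matrix (Fin 2) (Fin 2) ℂ).trace := by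
  classical
  have hdet := det_mem hL hd
  have hlist := Gd.list (L := {x | x ∈ L}) hdet h1 h2
  constructor
  · let D : Type _ := {l : List G // l ∈ L.sublists} ⊕ ({x : G // x ∈ L} × {x : G // x ∈ L}) ⊕
      {x : G // x ∈ L} ⊕ {x : G // x ∈ L}
    let d : D → I → ℂ := Sum.elim (fun l => (fam θ l.1.prod).trace)
      (Sum.elim (fun p => (fam θ (p.1.1 * p.2.1)).trace)
        (Sum.elim (fun x => (fam θ x.1).det) fun x => (fam θ x.1⁻¹).det))
    have : Finite {l : List G // l ∈ L.sublists} :=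
      (List.finite_toSet L.sublists).to_subtype
    have : Finite {x : G // x ∈ L} := (List.finite_toSet L).to_subtype
    refine finite_of_CL d ?_ _ ?_
    · rintro (⟨l, hl⟩ | ⟨x, y⟩ | x | x)
      · exact (hlist l fun x hx => (List.mem_sublists.1 hl).subset hx).1
      · exact (h2 x.1 x.2 y.1 y.2).1
      · exact (hd x.1 x.2).1.1
      · exact (hd x.1 x.2).2.1
    · intro g
      rw [← fam_trace]
      refine trace_mem (CL d) (fam θ) L hL ?_ ?_ ?_ ?_ g
      · intro l hl
        exact mem_CL d (Sum.inl ⟨l, List.mem_sublists.2 hl⟩)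
      · intro x hx y hy
        exact mem_CL d (Sum.inr (Sum.inl (⟨x, hx⟩, ⟨y, hy⟩)))
      · intro x hx
        exact mem_CL d (Sum.inr (Sum.inr (Sum.inl ⟨x, hx⟩)))
      · intro x hx
        exact mem_CL d (Sum.inr (Sum.inr (Sum.inr ⟨x, hx⟩)))
  · intro i g
    have := trace_mem (FR I) (fam θ) L hL
      (fun l hl => hlist l fun x hx => hl.subset hx) h2 (fun x hx => (hd x hx).1)
      (fun x hx => (hd x hx).2) g
    rw [fam_trace] at this
    exact this.2 i

end family

end Pool.Agent.Helper33.RT
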