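import Pool.Agent.Helper33.RT.Fam
import Mathlib.Combinatorics.SimpleGraph.Metric

/-!
Representations of rank two such that the eigenvalues along the paths of a graph of generators are
roots of unity.
-/

namespace Pool.Agent.Helper33.RT

open Matrix Polynomial

/-- The orders of the eigenvalues which are roots of unity are bounded. -/
theorem root_bound {G : Type*} [Group G] (hG : ∃ L : Set G, L.Finite ∧ Subgroup.closure L = ⊤)
    (r : ℕ) (ρ : G →* GL (Fin r) ℂ) : ∃ N : ℕ, 0 < N ∧ ∀ x : G,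
      (∀ z : ℂ, (ρ x : Matrix (Fin r) (Fin r) ℂ).charpoly.IsRoot z → ∃ n : ℕ, 0 < n ∧ z ^ n = 1) →
      ∀ z : ℂ, (ρ x : Matrix (Fin r) (Fin r) ℂ).charpoly.IsRoot z → z ^ N = 1 := by
  obtain ⟨L, hLf, hL⟩ := hG
  have hfg : (MonoidHom.range ρ).FG := by
    rw [Subgroup.fg_iff]
    refine ⟨ρ '' L, ?_, hLf.image ρ⟩
    rw [← MonoidHom.map_closure, hL, MonoidHom.range_eq_map]
  obtain ⟨F, _, _, π, hπ⟩ := Helper12.Sc.exists_finite_quotient r (MonoidHom.range ρ) hfg
  refine ⟨Nat.card F, Nat.card_pos, fun x hx c hc => ?_⟩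
  obtain ⟨n, hn, hcn⟩ := hx c hc
  have hmem : ρ x ∈ MonoidHom.range ρ := ⟨x, rfl⟩
  refine hπ (⟨ρ x, hmem⟩ ^ Nat.card F) ?_ (c ^ Nat.card F) ?_ n hn ?_
  · rw [map_pow, pow_card_eq_one']
  · have := Helper12.Sc.isRoot_pow hc (Nat.card F)
    simpa using this
  · rw [← pow_mul, mul_comm, pow_mul, hcn, one_pow]

/-- the numbers whose power is one -/
theorem finite_roots (N : ℕ) (hN : 0 < N) : {z : ℂ | z ^ N = 1}.Finite := by
  classical
  refine ((Polynomial.nthRoots N (1 : ℂ)).toFinset.finite_toSet).subset ?_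
  intro z hz
  rw [Finset.mem_coe, Multiset.mem_toFinset, Polynomial.mem_nthRoots hN]
  exact hz

theorem roots_two (U : Matrix (Fin 2) (Fin 2) ℂ) {N : ℕ}
    (h : ∀ z : ℂ, U.charpoly.IsRoot z → z ^ N = 1) :
    ∃ x y : ℂ, x ^ N = 1 ∧ y ^ N = 1 ∧ U.trace = x + y ∧ U.det = x * y := by
  have hcard : U.charpoly.roots.card = 2 := by
    have h1 := (IsAlgClosed.splits U.charpoly).natDegree_eq_card_roots
    rw [Matrix.charpoly_natDegree_eq_dim, Fintype.card_fin] at h1
    exact h1.symm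
  obtain ⟨x, y, hxy⟩ := Multiset.card_eq_two.1 hcard
  have hroot : ∀ c ∈ U.charpoly.roots, c ^ N = 1 := fun c hc =>
    h c (Polynomial.isRoot_of_mem_roots hc)
  rw [hxy] at hroot
  refine ⟨x, y, hroot x (by simp), hroot y (by simp), ?_, ?_⟩
  · rw [Matrix.trace_eq_sum_roots_charpoly, hxy]
    simp
  · rw [Matrix.det_eq_prod_roots_charpoly, hxy]
    simp

section

variable {I G : Type*} [Group G]

theorem gd_of_roots {θ : I → G →* GL (Fin 2) ℂ} {g : G} {N : ℕ} (hN : 0 < N)
    (h : ∀ i, ∀ z : ℂ, (θ i g : Matrix (Fin 2) (Fin 2) ℂ).charpoly.IsRoot z → z ^ N = 1) :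
    Gd θ g := by
  unfold Gd
  rw [fam_trace]
  have hf := finite_roots N hN
  constructor
  · refine (hf.image2 (fun x y => x + y) hf).subset ?_
    rintro _ ⟨i, rfl⟩
    obtain ⟨x, y, hx, hy, h1, -⟩ := roots_two _ (h i)
    exact ⟨x, hx, y, hy, h1.symm⟩
  · intro i
    obtain ⟨x, y, hx, hy, h1, -⟩ := roots_two _ (h i)
    simp only
    rw [h1]
    refine IsIntegral.add ?_ ?_
    · exact IsIntegral.of_pow hN (by rw [hx]; exact isIntegral_one)
    · exact IsIntegral.of_pow hN (by rw [hy]; exact isIntegral_one)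

theorem det_of_roots {θ : I → G →* GL (Fin 2) ℂ} {g : G} {N : ℕ} (hN : 0 < N)
    (h : ∀ i, ∀ z : ℂ, (θ i g : Matrix (Fin 2) (Fin 2) ℂ).charpoly.IsRoot z → z ^ N = 1) :
    (fam θ g).det ∈ FR I ∧ (fam θ g⁻¹).det ∈ FR I := by
  have key : ∀ f : I → ℂ, f ^ N = 1 → f ∈ FR I := by
    intro f hf
    have h1 : ∀ i, f i ^ N = 1 := fun i => congrFun hf i
    refine ⟨(finite_roots N hN).subset ?_, fun i => ?_⟩
    · rintro _ ⟨i, rfl⟩
      exact h1 i
    · exact IsIntegral.of_pow hN (by rw [h1 i]; exact isIntegral_one)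
  have h2 : (fam θ g).det ^ N = 1 := by
    rw [fam_det]
    funext i
    obtain ⟨x, y, hx, hy, -, h1⟩ := roots_two _ (h i)
    rw [Pi.pow_apply, h1, mul_pow, hx, hy, one_mul]
    rfl
  refine ⟨key _ h2, key _ ?_⟩
  have h3 : (fam θ g⁻¹).det * (fam θ g).det = 1 := by
    rw [← Matrix.det_mul, ← map_mul, inv_mul_cancel, map_one, Matrix.det_one]
  have h4 := congrArg (fun z => z ^ N) h3
  simp only [mul_pow, h2, mul_one, one_pow] at h4
  exact h4

end

section graph

variable {G V : Type*} [Group G] {T : SimpleGraph V}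

/-- the word of a walk -/
def word (c : V → G) {u v : V} (p : T.Walk u v) : G := (p.support.map c).prod

theorem length_eq_dist_of_append {u v w : V} (p : T.Walk u v) (q : T.Walk v w)
    (h : (p.append q).length = T.dist u w) : p.length = T.dist u v ∧ q.length = T.dist v w := by
  have h1 := SimpleGraph.dist_le p
  have h2 := SimpleGraph.dist_le q
  have h3 : T.dist u w ≤ T.dist u v + T.dist v w := by
    obtain ⟨p', hp'⟩ := p.reachable.exists_walk_length_eq_dist
    obtain ⟨q', hq'⟩ := q.reachable.exists_walk_length_eq_dist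
    have := SimpleGraph.dist_le (p'.append q')
    rw [SimpleGraph.Walk.length_append, hp', hq'] at this
    exact this
  rw [SimpleGraph.Walk.length_append] at h
  omega

/-- **Main theorem.** -/
theorem graph_finite [Finite V] (hT : T.Connected) (c : V → G)
    (hc : Subgroup.closure (Set.range c) = ⊤) (Γ : Set (G ≃* G)) (ρ : G →* GL (Fin 2) ℂ)
    (hρ : ∀ φ ∈ Γ, ∀ (u v : V) (p : T.Walk u v), p.length = T.dist u v → ∀ z : ℂ,
      (ρ (φ (p.support.map c).prod) : Matrix (Fin 2) (Fin 2) ℂ).charpoly.IsRoot z →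
        ∃ n : ℕ, 0 < n ∧ z ^ n = 1) :
    {χ : G → ℂ | ∃ φ ∈ Γ, χ = fun x => (ρ (φ x) : Matrix (Fin 2) (Fin 2) ℂ).trace}.Finite ∧
      ∀ φ ∈ Γ, ∀ x : G, IsIntegral ℤ (ρ (φ x) : Matrix (Fin 2) (Fin 2) ℂ).trace := by
  classical
  obtain ⟨N, hN, hb⟩ := root_bound ⟨Set.range c, Set.finite_range c, hc⟩ 2 ρ
  let θ : Γ → G →* GL (Fin 2) ℂ := fun φ => ρ.comp φ.1.toMonoidHom
  have hroot : ∀ (u v : V) (p : T.Walk u v), p.length = T.dist u v → ∀ i : Γ, ∀ z : ℂ,
      (θ i (p.support.map c).prod : Matrix (Fin 2) (Fin 2) ℂ).charpoly.IsRoot z → z ^ N = 1 :=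
    fun u v p hp i z hz => hb _ (hρ i.1 i.2 u v p hp) z hz
  have hgd : ∀ (u v : V) (p : T.Walk u v), p.length = T.dist u v →
      Gd θ (p.support.map c).prod := fun u v p hp => gd_of_roots hN (hroot u v p hp)
  have hone : ∀ v, (((SimpleGraph.Walk.nil : T.Walk v v)).support.map c).prod = c v := by
    intro v
    simp
  have hv : ∀ v, Gd θ (c v) := by
    intro v
    have := hgd v v SimpleGraph.Walk.nil (by simp)
    rwa [hone] at this
  have hdet : ∀ v, (fam θ (c v)).det ∈ FR Γ ∧ (fam θ (c v)⁻¹).det ∈ FR Γ := by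
    intro v
    have := det_of_roots hN (hroot v v SimpleGraph.Walk.nil (by simp))
    rwa [hone] at this
  obtain ⟨e⟩ : Nonempty (Fintype V) := ⟨Fintype.ofFinite V⟩
  let L : List G := (Finset.univ : Finset V).toList.map c
  have hmem : ∀ x, x ∈ L ↔ ∃ v, c v = x := by
    intro x
    simp [L]
  have hL : Subgroup.closure {x | x ∈ L} = ⊤ := by
    rw [← hc]
    congr 1
    ext x
    exact hmem x
  have hd : ∀ x ∈ L, (fam θ x).det ∈ FR Γ ∧ (fam θ x⁻¹).det ∈ FR Γ := by
    intro x hx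
    obtain ⟨v, rfl⟩ := (hmem x).1 hx
    exact hdet v
  have hdall := det_mem hL hd
  have hpair : ∀ u v, Gd θ (c u * c v) := by
    intro u v
    obtain ⟨p, hp⟩ := hT.exists_walk_length_eq_dist u v
    match p, hp with
    | .nil, _ => exact Gd.sq hdall (hv _)
    | .cons h .nil, hp =>
      have := hgd _ _ _ hp
      simpa using this
    | .cons h (.cons h2 q2), hp =>
      obtain ⟨x, q, h', hq⟩ := SimpleGraph.Walk.exists_cons_eq_concat h2 q2
      rw [hq] at hp
      have h1 : (q.concat h').length = T.dist _ v :=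
        (length_eq_dist_of_append (SimpleGraph.Walk.cons h .nil) (q.concat h') hp).2
      have h3 : q.length = T.dist _ x :=
        (length_eq_dist_of_append q (SimpleGraph.Walk.cons h' .nil) h1).1
      have h4 : (SimpleGraph.Walk.cons h q).length = T.dist u x :=
        (length_eq_dist_of_append (SimpleGraph.Walk.cons h q) (SimpleGraph.Walk.cons h' .nil) hp).1
      have g1 := hgd _ _ _ hp
      have g2 := hgd _ _ _ h1
      have g3 := hgd _ _ _ h3
      have g4 := hgd _ _ _ h4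
      have e1 : ((SimpleGraph.Walk.cons h (q.concat h')).support.map c).prod =
          c u * (q.support.map c).prod * c v := by
        simp [SimpleGraph.Walk.support_concat, mul_assoc]
      have e2 : ((q.concat h').support.map c).prod = (q.support.map c).prod * c v := by
        simp [SimpleGraph.Walk.support_concat]
      have e3 : ((SimpleGraph.Walk.cons h q).support.map c).prod =
          c u * (q.support.map c).prod := by
        simp
      rw [e1] at g1
      rw [e2] at g2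
      rw [e3] at g4
      exact Gd.ends hdall (hv u) g3 (hv v) g4 g2 g1
  have := criterion θ L hL hd (by
    intro x hx
    obtain ⟨v, rfl⟩ := (hmem x).1 hx
    exact hv v) (by
    intro x hx y hy
    obtain ⟨u, rfl⟩ := (hmem x).1 hx
    obtain ⟨v, rfl⟩ := (hmem y).1 hy
    exact hpair u v)
  refine ⟨?_, fun φ hφ x => this.2 ⟨φ, hφ⟩ x⟩
  refine this.1.subset ?_
  rintro χ ⟨φ, hφ, rfl⟩
  exact ⟨⟨φ, hφ⟩, rfl⟩

end graph

end Pool.Agent.Helper33.RT
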