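import Mathlib

/-!
The fundamental group of the orbifold `P¹` with `n` points of order two, its subgroup of even words
(the fundamental group of the hyperelliptic curve ramified in these points, if `n` is even) and
half twists.
-/

namespace Pool.Agent.Helper33.RT

/-- The relations `x_i ^ 2` and `x_0 x_1 ⋯ x_{n-1}`. -/
def hypRels (n : ℕ) : Set (FreeGroup (Fin n)) :=
  {r | (∃ i, r = FreeGroup.of i ^ 2) ∨ r = (List.ofFn fun i : Fin n => FreeGroup.of i).prod}

/-- The fundamental group of the orbifold `P¹` with `n` points of order two: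
`⟨x_0, …, x_{n-1} | x_i ^ 2, x_0 x_1 ⋯ x_{n-1}⟩`. -/
abbrev HypOrb (n : ℕ) : Type := PresentedGroup (hypRels n)

/-- The loop around the point with index `i`. -/
def pt {n : ℕ} (i : Fin n) : HypOrb n := PresentedGroup.of i

/-- The even words; if `n = 2 g + 2` this is the fundamental group of the hyperelliptic curve of
genus `g` ramified in the `n` points. -/
def evenSub (n : ℕ) : Subgroup (HypOrb n) :=
  Subgroup.closure {x | ∃ i j : Fin n, x = pt i * pt j}

section

variable {n : ℕ}

theorem pt_sq (i : Fin n) : pt i * pt i = 1 := by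
  have h1 : (PresentedGroup.mk (hypRels n) (FreeGroup.of i ^ 2)) = 1 :=
    PresentedGroup.one_of_mem (Or.inl ⟨i, rfl⟩)
  rw [map_pow, pow_two] at h1
  exact h1

theorem pt_inv (i : Fin n) : (pt i)⁻¹ = pt i := inv_eq_of_mul_eq_one_left (pt_sq i)

theorem pt_prod : (List.ofFn fun i : Fin n => pt i).prod = 1 := by
  have h1 : (PresentedGroup.mk (hypRels n)
      (List.ofFn fun i : Fin n => FreeGroup.of i).prod) = 1 :=
    PresentedGroup.one_of_mem (Or.inr rfl)
  rw [map_list_prod, List.map_ofFn] at h1
  exact h1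

theorem exists_homHyp {H : Type*} [Group H] (f : Fin n → H) (h1 : ∀ i, f i * f i = 1)
    (h2 : (List.ofFn f).prod = 1) : ∃ ψ : HypOrb n →* H, ∀ i, ψ (pt i) = f i := by
  refine ⟨PresentedGroup.toGroup (f := f) ?_, fun i => PresentedGroup.toGroup.of _⟩
  rintro r (⟨i, rfl⟩ | rfl)
  · rw [map_pow, FreeGroup.lift_apply_of, pow_two, h1]
  · rw [map_list_prod, List.map_ofFn]
    rw [← h2]
    congr 2
    funext i
    simp

theorem homHyp_ext {H : Type*} [Group H] {ψ ψ' : HypOrb n →* H}
    (h : ∀ i, ψ (pt i) = ψ' (pt i)) : ψ = ψ' := PresentedGroup.ext h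

theorem pt_mul_mem (i j : Fin n) : pt i * pt j ∈ evenSub n := Subgroup.subset_closure ⟨i, j, rfl⟩

/-- The even words form a normal subgroup. -/
theorem conj_mem_even (x : HypOrb n) {y : HypOrb n} (hy : y ∈ evenSub n) :
    x * y * x⁻¹ ∈ evenSub n := by
  have h1 : ∀ (k : Fin n) (y : HypOrb n), y ∈ evenSub n → pt k * y * pt k ∈ evenSub n := by
    intro k y hy
    induction hy using Subgroup.closure_induction with
    | mem y hy =>
      obtain ⟨i, j, rfl⟩ := hy
      have := (evenSub n).mul_mem (pt_mul_mem k i) (pt_mul_mem j k)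
      simpa only [mul_assoc] using this
    | one =>
      rw [mul_one, pt_sq]
      exact (evenSub n).one_mem
    | mul a b _ _ ha hb =>
      have := (evenSub n).mul_mem ha hb
      have e : pt k * a * pt k * (pt k * b * pt k) = pt k * (a * b) * pt k := by
        calc pt k * a * pt k * (pt k * b * pt k) = pt k * a * (pt k * pt k) * b * pt k := by
              simp only [mul_assoc]
          _ = pt k * (a * b) * pt k := by rw [pt_sq, mul_one]; simp only [mul_assoc]
      rwa [e] at this
    | inv a _ ha =>
      have := (evenSub n).inv_mem ha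
      rwa [mul_inv_rev, mul_inv_rev, pt_inv, ← mul_assoc] at this
  have h2 : x ∈ Subgroup.closure (Set.range (fun i : Fin n => (pt i : HypOrb n))) := by
    have : Subgroup.closure (Set.range (fun i : Fin n => (pt i : HypOrb n))) = ⊤ :=
      PresentedGroup.closure_range_of (hypRels n)
    rw [this]
    exact Subgroup.mem_top x
  induction h2 using Subgroup.closure_induction generalizing y with
  | mem x hx =>
    obtain ⟨k, rfl⟩ := hx
    simp only
    rw [pt_inv]
    exact h1 k y hy
  | one => simpa using hy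
  | mul a b _ _ ha hb =>
    have := ha (hb hy)
    rw [mul_inv_rev]
    simpa only [mul_assoc] using this
  | inv a ha' ha =>
    -- the subgroup generated by involutions
    have h3 : ∀ a ∈ Subgroup.closure (Set.range (fun i : Fin n => (pt i : HypOrb n))),
        ∀ y ∈ evenSub n, a * y * a⁻¹ ∈ evenSub n ∧ a⁻¹ * y * a ∈ evenSub n := by
      intro a ha
      induction ha using Subgroup.closure_induction with
      | mem x hx =>
        obtain ⟨k, rfl⟩ := hx
        intro y hy
        simp only
        rw [pt_inv]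
        exact ⟨h1 k y hy, h1 k y hy⟩
      | one => intro y hy; simpa using hy
      | mul a b _ _ ha hb =>
        intro y hy
        have k1 := (ha _ (hb y hy).1).1
        have k2 := (hb _ (ha y hy).2).2
        rw [mul_inv_rev]
        exact ⟨by simpa only [mul_assoc] using k1, by simpa only [mul_assoc] using k2⟩
      | inv a _ ha =>
        intro y hy
        rw [inv_inv]
        exact ⟨(ha y hy).2, (ha y hy).1⟩
    have := (h3 a ha' y hy).2
    rwa [inv_inv]

/-- odd elements -/
def Od (y : HypOrb n) : Prop := ∃ l : Fin n, y * pt l ∈ evenSub n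

theorem od_pt (i : Fin n) : Od (pt i) := ⟨i, by rw [pt_sq]; exact (evenSub n).one_mem⟩

theorem od_conj (i j : Fin n) : Od (pt i * pt j * pt i) :=
  ⟨i, by rw [mul_assoc, pt_sq, mul_one]; exact pt_mul_mem i j⟩

theorem Od.mul {y z : HypOrb n} (hy : Od y) (hz : Od z) : y * z ∈ evenSub n := by
  obtain ⟨l, hl⟩ := hy
  obtain ⟨m, hm⟩ := hz
  have h1 := conj_mem_even (pt l) hm
  rw [pt_inv] at h1
  have h2 := (evenSub n).mul_mem ((evenSub n).mul_mem hl h1) (pt_mul_mem l m)
  have e : y * pt l * (pt l * (z * pt m) * pt l) * (pt l * pt m) = y * z := by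
    calc y * pt l * (pt l * (z * pt m) * pt l) * (pt l * pt m) =
        y * (pt l * pt l) * z * pt m * (pt l * pt l) * pt m := by simp only [mul_assoc]
      _ = y * z := by rw [pt_sq, mul_one, mul_one, mul_assoc (y * z), pt_sq, mul_one]
  rwa [e] at h2

theorem map_even {m : ℕ} (ψ : HypOrb m →* HypOrb n) (h : ∀ i, Od (ψ (pt i))) (y : HypOrb m)
    (hy : y ∈ evenSub m) : ψ y ∈ evenSub n := by
  induction hy using Subgroup.closure_induction with
  | mem y hy =>
    obtain ⟨i, j, rfl⟩ := hy
    rw [map_mul]
    exact (h i).mul (h j)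
  | one =>
    rw [map_one]
    exact (evenSub n).one_mem
  | mul a b _ _ ha hb =>
    rw [map_mul]
    exact (evenSub n).mul_mem ha hb
  | inv a _ ha =>
    rw [map_inv]
    exact (evenSub n).inv_mem ha

/-- The automorphism preserves the even words. -/
def Ev (φ : HypOrb n ≃* HypOrb n) : Prop := ∀ y, φ y ∈ evenSub n ↔ y ∈ evenSub n

theorem Ev.symm {φ : HypOrb n ≃* HypOrb n} (h : Ev φ) : Ev φ.symm := by
  intro y
  rw [← h (φ.symm y), MulEquiv.apply_symm_apply]

theorem ev_conj (x : HypOrb n) : Ev (MulAut.conj x) := by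
  intro y
  rw [MulAut.conj_apply]
  constructor
  · intro h
    have := conj_mem_even x⁻¹ h
    rw [inv_inv] at this
    simpa only [mul_assoc, inv_mul_cancel, mul_one, inv_mul_cancel_left] using this
  · exact conj_mem_even x

/-- products which agree outside two neighbours -/
theorem prod_swap {H : Type*} [Group H] (f f' : Fin n → H) (k : ℕ) (hk : k + 1 < n)
    (h1 : ∀ i : Fin n, i.1 ≠ k → i.1 ≠ k + 1 → f' i = f i)
    (h2 : f' ⟨k, by omega⟩ * f' ⟨k + 1, hk⟩ = f ⟨k, by omega⟩ * f ⟨k + 1, hk⟩) :
    (List.ofFn f').prod = (List.ofFn f).prod := by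
  induction n generalizing k with
  | zero => omega
  | succ n ih =>
    match k with
    | 0 =>
      match n, hk with
      | n + 1, _ =>
        rw [List.ofFn_succ, List.ofFn_succ, List.prod_cons, List.prod_cons, ← mul_assoc,
          List.ofFn_succ (f := f), List.ofFn_succ (f := fun i : Fin (n + 1) => f i.succ),
          List.prod_cons, List.prod_cons, ← mul_assoc]
        have e1 : f' 0 * f' (Fin.succ 0) = f 0 * f (Fin.succ 0) := h2
        rw [e1]
        congr 3
        funext i
        refine h1 _ ?_ ?_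
        · simp
        · simp
    | k + 1 =>
      rw [List.ofFn_succ, List.ofFn_succ (f := f), List.prod_cons, List.prod_cons]
      rw [h1 0 (by simp) (by simp)]
      congr 1
      refine ih (fun i => f i.succ) (fun i => f' i.succ) k (by omega) ?_ ?_
      · intro i h3 h4
        refine h1 _ ?_ ?_
        · simpa using h3
        · simpa using h4
      · exact h2

/-- The half twist. -/
theorem exists_twist (k : ℕ) (hk : k + 1 < n) : ∃ φ : HypOrb n ≃* HypOrb n, Ev φ ∧
    φ (pt ⟨k, by omega⟩) = pt ⟨k + 1, hk⟩ ∧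
    φ (pt ⟨k + 1, hk⟩) = pt ⟨k + 1, hk⟩ * pt ⟨k, by omega⟩ * pt ⟨k + 1, hk⟩ ∧
    ∀ i : Fin n, i.1 ≠ k → i.1 ≠ k + 1 → φ (pt i) = pt i := by
  classical
  let a : Fin n := ⟨k, by omega⟩
  let b : Fin n := ⟨k + 1, hk⟩
  have hab : b ≠ a := by
    intro h
    have := congrArg Fin.val h
    simp [a, b] at this
  let f : Fin n → HypOrb n := fun i => if i = a then pt b else if i = b then pt b * pt a * pt b
    else pt i
  let f' : Fin n → HypOrb n := fun i => if i = a then pt a * pt b * pt a else if i = b then pt a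
    else pt i
  have hfa : f a = pt b := if_pos rfl
  have hfb : f b = pt b * pt a * pt b := by
    simp only [f, if_neg hab, if_true]
  have hfi : ∀ i : Fin n, i ≠ a → i ≠ b → f i = pt i := by
    intro i h1 h2
    simp only [f]
    rw [if_neg h1, if_neg h2]
  have hfa' : f' a = pt a * pt b * pt a := if_pos rfl
  have hfb' : f' b = pt a := by
    simp only [f', if_neg hab, if_true]
  have hfi' : ∀ i : Fin n, i ≠ a → i ≠ b → f' i = pt i := by
    intro i h1 h2
    simp only [f']
    rw [if_neg h1, if_neg h2]
  have hsq : ∀ i j : Fin n, (pt i * pt j * pt i) * (pt i * pt j * pt i) = 1 := by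
    intro i j
    calc (pt i * pt j * pt i) * (pt i * pt j * pt i) =
        pt i * (pt j * (pt i * pt i) * pt j) * pt i := by simp only [mul_assoc]
      _ = 1 := by rw [pt_sq, mul_one, pt_sq, mul_one, pt_sq]
  obtain ⟨ψ, hψ⟩ := exists_homHyp f (by
    intro i
    by_cases h1 : i = a
    · rw [h1, hfa, pt_sq]
    · by_cases h2 : i = b
      · rw [h2, hfb, hsq]
      · rw [hfi i h1 h2, pt_sq]) (by
    rw [← pt_prod]
    refine prod_swap pt f k hk ?_ ?_
    · intro i h1 h2
      refine hfi i ?_ ?_
      · rintro rfl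
        exact h1 rfl
      · rintro rfl
        exact h2 rfl
    · show f a * f b = pt a * pt b
      rw [hfa, hfb, ← mul_assoc, ← mul_assoc, pt_sq, one_mul])
  obtain ⟨ψ', hψ'⟩ := exists_homHyp f' (by
    intro i
    by_cases h1 : i = a
    · rw [h1, hfa', hsq]
    · by_cases h2 : i = b
      · rw [h2, hfb', pt_sq]
      · rw [hfi' i h1 h2, pt_sq]) (by
    rw [← pt_prod]
    refine prod_swap pt f' k hk ?_ ?_
    · intro i h1 h2
      refine hfi' i ?_ ?_
      · rintro rfl
        exact h1 rfl
      · rintro rfl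
        exact h2 rfl
    · show f' a * f' b = pt a * pt b
      rw [hfa', hfb', mul_assoc, pt_sq, mul_one])
  have h1 : ψ'.comp ψ = MonoidHom.id _ := by
    apply homHyp_ext
    intro i
    rw [MonoidHom.comp_apply, hψ, MonoidHom.id_apply]
    by_cases h1 : i = a
    · rw [h1, hfa, hψ', hfb']
    · by_cases h2 : i = b
      · rw [h2, hfb, map_mul, map_mul, hψ', hψ', hfb', hfa']
        calc pt a * (pt a * pt b * pt a) * pt a = (pt a * pt a) * pt b * (pt a * pt a) := by
              simp only [mul_assoc]
          _ = pt b := by rw [pt_sq, one_mul, mul_one]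
      · rw [hfi i h1 h2, hψ', hfi' i h1 h2]
  have h2 : ψ.comp ψ' = MonoidHom.id _ := by
    apply homHyp_ext
    intro i
    rw [MonoidHom.comp_apply, hψ', MonoidHom.id_apply]
    by_cases h1 : i = a
    · rw [h1, hfa', map_mul, map_mul, hψ, hψ, hfb, hfa]
      calc pt b * (pt b * pt a * pt b) * pt b = (pt b * pt b) * pt a * (pt b * pt b) := by
            simp only [mul_assoc]
        _ = pt a := by rw [pt_sq, one_mul, mul_one]
    · by_cases h2 : i = b
      · rw [h2, hfb', hψ, hfa]
      · rw [hfi' i h1 h2, hψ, hfi i h1 h2]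
  have hodd : ∀ i, Od (ψ (pt i)) := by
    intro i
    rw [hψ]
    by_cases h1 : i = a
    · rw [h1, hfa]
      exact od_pt b
    · by_cases h2 : i = b
      · rw [h2, hfb]
        exact od_conj b a
      · rw [hfi i h1 h2]
        exact od_pt i
  have hodd' : ∀ i, Od (ψ' (pt i)) := by
    intro i
    rw [hψ']
    by_cases h1 : i = a
    · rw [h1, hfa']
      exact od_conj a b
    · by_cases h2 : i = b
      · rw [h2, hfb']
        exact od_pt a
      · rw [hfi' i h1 h2]
        exact od_pt i
  refine ⟨MonoidHom.toMulEquiv ψ ψ' h1 h2, ?_, ?_, ?_, ?_⟩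
  · intro y
    constructor
    · intro hy
      have h3 := map_even ψ' hodd' _ hy
      have h4 : ψ' (ψ y) = y := by
        rw [← MonoidHom.comp_apply, h1, MonoidHom.id_apply]
      rwa [← h4]
    · exact map_even ψ hodd y
  · show ψ (pt a) = pt b
    rw [hψ, hfa]
  · show ψ (pt b) = pt b * pt a * pt b
    rw [hψ, hfb]
  · intro i h3 h4
    show ψ (pt i) = pt i
    rw [hψ]
    refine hfi i ?_ ?_
    · rintro rfl
      exact h3 rfl
    · rintro rfl
      exact h4 rfl

end

end Pool.Agent.Helper33.RT
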