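import Pool.Agent.FR3.Poly
import Pool.Agent.Helper33.RT.Graph

/-!
A criterion for the finiteness of families of characters of rank three: all words of length at most
three in `c_i`, `c_j⁻¹`, `c_k`, `i < j < k`, have roots of unity as eigenvalues.
-/

namespace Pool.Agent.Helper33.RT

open Matrix MvPolynomial FR3

section words

variable {m : ℕ}

/-- the generic matrix of a letter of one of two tuples -/
noncomputable def gn2 (m : ℕ) (e : Bool) (l : Fin m × Bool) :
    Matrix (Fin 3) (Fin 3) (MvPolynomial (Bool × Vr m) ℂ) := Matrix.of fun i j => X (e, l, i, j)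

theorem map_gn2 (x : Bool × Vr m → ℂ) (e : Bool) (w : List (Fin m × Bool)) :
    (eval x).mapMatrix ((w.map (gn2 m e)).prod) = (w.map (mx fun v => x (e, v))).prod := by
  induction w with
  | nil => simp
  | cons l w ih =>
    rw [List.map_cons, List.map_cons, List.prod_cons, List.prod_cons, map_mul, ih]
    congr 1
    ext i j
    simp only [gn2, mx, RingHom.mapMatrix_apply, Matrix.map_apply, Matrix.of_apply, eval_X]

theorem eval_gn2 (x : Bool × Vr m → ℂ) (e : Bool) (w : List (Fin m × Bool)) :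
    eval x ((w.map (gn2 m e)).prod).trace = ((w.map (mx fun v => x (e, v))).prod).trace := by
  rw [← map_gn2, RingHom.mapMatrix_apply]
  exact (AddMonoidHom.map_trace (eval x) _)

/-- The traces of finitely many words determine the traces of all words. -/
theorem exists_words (m : ℕ) : ∃ s : Finset (List (Fin m × Bool)),
    ∀ B B' : Fin m × Bool → M3, (∀ w ∈ s, ((w.map B).prod).trace = ((w.map B').prod).trace) →
      ∀ w : List (Fin m × Bool), ((w.map B).prod).trace = ((w.map B').prod).trace := by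
  classical
  let f : List (Fin m × Bool) → MvPolynomial (Bool × Vr m) ℂ :=
    fun w => ((w.map (gn2 m true)).prod).trace - ((w.map (gn2 m false)).prod).trace
  let pt : (Fin m × Bool → M3) → (Fin m × Bool → M3) → Bool × Vr m → ℂ :=
    fun B B' v => if v.1 then B v.2.1 v.2.2.1 v.2.2.2 else B' v.2.1 v.2.2.1 v.2.2.2
  have hf : ∀ (B B' : Fin m × Bool → M3) (w : List (Fin m × Bool)),
      eval (pt B B') (f w) = ((w.map B).prod).trace - ((w.map B').prod).trace := by
    intro B B' w
    simp only [f]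
    rw [map_sub, eval_gn2, eval_gn2]
    rfl
  obtain ⟨t, ht, hspan⟩ := Submodule.fg_span_iff_fg_span_finset_subset (Set.range f) |>.1
    (IsNoetherian.noetherian (Ideal.span (Set.range f)))
  rw [← Set.image_univ] at ht
  obtain ⟨s, hs, hst⟩ := Finset.subset_set_image_iff.1 ht
  refine ⟨s, fun B B' h => ?_⟩
  intro x
  have h1 : f x ∈ Submodule.span (MvPolynomial (Bool × Vr m) ℂ) (t : Set _) := by
    rw [← hspan]
    exact Submodule.subset_span ⟨x, rfl⟩
  have h2 : Submodule.span (MvPolynomial (Bool × Vr m) ℂ)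
      (t : Set (MvPolynomial (Bool × Vr m) ℂ)) ≤ RingHom.ker (eval (pt B B')) := by
    rw [Submodule.span_le]
    intro p hp
    rw [← hst, Finset.coe_image] at hp
    obtain ⟨y, hy, rfl⟩ := hp
    show f y ∈ RingHom.ker (eval (pt B B'))
    rw [RingHom.mem_ker, hf, h y hy, sub_self]
  have h3 := h2 h1
  rw [RingHom.mem_ker, hf] at h3
  exact sub_eq_zero.1 h3

end words

section group

variable {G I : Type*} [Group G]

/-- the tuple of a representation -/
def tup3 {m : ℕ} (θ : G →* GL (Fin 3) ℂ) (C : Fin m → G) (l : Fin m × Bool) : M3 :=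
  ((θ (if l.2 then C l.1 else (C l.1)⁻¹) : GL (Fin 3) ℂ) : M3)

theorem tup3_prod {m : ℕ} (θ : G →* GL (Fin 3) ℂ) (C : Fin m → G)
    (L : List (Fin m × Bool)) : (L.map (tup3 θ C)).prod =
      ((θ (L.map fun l => if l.2 then C l.1 else (C l.1)⁻¹).prod : GL (Fin 3) ℂ) : M3) := by
  induction L with
  | nil =>
    rw [List.map_nil, List.map_nil, List.prod_nil, List.prod_nil, map_one, Units.val_one]
  | cons l L ih =>
    rw [List.map_cons, List.map_cons, List.prod_cons, List.prod_cons, ih, map_mul, Units.val_mul]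
    rfl

theorem exists_word3 {m : ℕ} (C : Fin m → G)
    (hC : Subgroup.closure (Set.range C) = ⊤) (x : G) :
    ∃ L : List (Fin m × Bool), x = (L.map fun l => if l.2 then C l.1 else (C l.1)⁻¹).prod := by
  have h1 : x ∈ (FreeGroup.lift C).range := by
    rw [FreeGroup.range_lift_eq_closure, hC]
    exact Subgroup.mem_top x
  obtain ⟨w, rfl⟩ := h1
  refine ⟨w.toWord, ?_⟩
  conv_lhs => rw [← FreeGroup.mk_toWord (x := w), FreeGroup.lift_mk]
  congr 1
  apply List.map_congr_left
  rintro ⟨k, b⟩ _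
  cases b <;> rfl

theorem finite_sums3 (N : ℕ) (hN : 0 < N) :
    {z : ℂ | ∃ U : M3, (∀ c : ℂ, U.charpoly.IsRoot c → c ^ N = 1) ∧ U.trace = z}.Finite := by
  classical
  let Z : Finset ℂ := (Polynomial.nthRoots N (1 : ℂ)).toFinset
  have hfin : (Set.range fun F : Fin 3 → Z => ∑ i, (F i : ℂ)).Finite := Set.finite_range _
  refine hfin.subset ?_
  rintro z ⟨U, hU, rfl⟩
  have hcard : U.charpoly.roots.card = 3 := by
    have h1 := (IsAlgClosed.splits U.charpoly).natDegree_eq_card_roots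
    rw [Matrix.charpoly_natDegree_eq_dim, Fintype.card_fin] at h1
    exact h1.symm
  have htr : U.trace = U.charpoly.roots.sum :=
    Matrix.trace_eq_sum_roots_charpoly U
  have hroot : ∀ c ∈ U.charpoly.roots, c ∈ Z := by
    intro c hc
    have h1 := hU c (Polynomial.isRoot_of_mem_roots hc)
    simp only [Z]
    rw [Multiset.mem_toFinset, Polynomial.mem_nthRoots hN]
    exact h1
  obtain ⟨a, b, c, habc⟩ := Multiset.card_eq_three.1 hcard
  rw [habc] at hroot
  refine ⟨![⟨a, hroot a (by simp)⟩, ⟨b, hroot b (by simp)⟩, ⟨c, hroot c (by simp)⟩], ?_⟩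
  simp only
  rw [htr, habc, Fin.sum_univ_three]
  simp [add_assoc]

/-- **Criterion in rank three.** -/
theorem three_finite {m : ℕ} (hm : 3 ≤ m) (C : Fin m → G)
    (hC : Subgroup.closure (Set.range C) = ⊤) (ρ : G →* GL (Fin 3) ℂ) (Γ : Set (G →* G))
    (hρ : ∀ φ ∈ Γ, ∀ i j k : Fin m, i < j → j < k → ∀ w : List (Fin 3), w ≠ [] → w.length ≤ 3 →
      ∀ z : ℂ, (ρ (φ (w.map ![C i, (C j)⁻¹, C k]).prod) : M3).charpoly.IsRoot z →
        ∃ n : ℕ, 0 < n ∧ z ^ n = 1) :
    {χ : G → ℂ | ∃ φ ∈ Γ, χ = fun x => (ρ (φ x) : M3).trace}.Finite := by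
  classical
  obtain ⟨N, hN, hb⟩ := root_bound ⟨Set.range C, Set.finite_range C, hC⟩ 3 ρ
  let F : Finset ℂ := (finite_sums3 N hN).toFinset
  have hF : ∀ x : G, (∀ z : ℂ, (ρ x : M3).charpoly.IsRoot z → ∃ n : ℕ, 0 < n ∧ z ^ n = 1) →
      F3 F (ρ x : M3) := by
    intro x hx
    have h1 := hb x hx
    have h2 : ∀ k : ℕ, 0 < k → ((ρ x : M3) ^ k).trace ∈ F := by
      intro k hk
      simp only [F]
      rw [Set.Finite.mem_toFinset]
      refine ⟨_, ?_, rfl⟩
      intro z hz
      rw [← Matrix.mem_spectrum_iff_isRoot_charpoly, spectrum.map_pow_of_pos _ hk] at hz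
      obtain ⟨c, hc, rfl⟩ := hz
      rw [Matrix.mem_spectrum_iff_isRoot_charpoly] at hc
      simp only
      rw [← pow_mul, mul_comm, pow_mul, h1 c hc, one_pow]
    refine ⟨?_, ?_, ?_⟩
    · simpa using h2 1 one_pos
    · have := h2 2 two_pos
      rwa [pow_two] at this
    · have := h2 3 three_pos
      rwa [pow_succ, pow_two] at this
  have hinv : ∀ x : G, (∀ z : ℂ, (ρ x : M3).charpoly.IsRoot z → ∃ n : ℕ, 0 < n ∧ z ^ n = 1) →
      ∀ z : ℂ, (ρ x⁻¹ : M3).charpoly.IsRoot z → ∃ n : ℕ, 0 < n ∧ z ^ n = 1 := by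
    intro x hx z hz
    rw [← Matrix.mem_spectrum_iff_isRoot_charpoly] at hz
    have hz0 : z ≠ 0 := by
      rintro rfl
      rw [spectrum.zero_mem_iff] at hz
      exact hz (ρ x⁻¹).isUnit
    have h1 : z⁻¹ ∈ spectrum ℂ ((ρ x : GL (Fin 3) ℂ) : M3) := by
      have h2 := (spectrum.inv_mem_iff (R := ℂ) (r := Units.mk0 z hz0)
        (a := (ρ x⁻¹ : GL (Fin 3) ℂ))).1 (by simpa using hz)
      simpa using h2
    rw [Matrix.mem_spectrum_iff_isRoot_charpoly] at h1
    obtain ⟨n, hn, h3⟩ := hx _ h1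
    refine ⟨n, hn, ?_⟩
    rwa [inv_pow, inv_eq_one] at h3
  have hcond : ∀ φ ∈ Γ, Cond F (tup3 (ρ.comp φ) C) := by
    intro φ hφ
    refine ⟨?_, ?_, ?_⟩
    · intro k
      show ((ρ.comp φ (C k) : GL (Fin 3) ℂ) : M3) * ((ρ.comp φ (C k)⁻¹ : GL (Fin 3) ℂ) : M3) = 1
      rw [← Units.val_mul, ← map_mul, mul_inv_cancel, map_one, Units.val_one]
    · have hk : ∀ k, ∀ z : ℂ, (ρ (φ (C k)) : M3).charpoly.IsRoot z →
          ∃ n : ℕ, 0 < n ∧ z ^ n = 1 := by
        intro k
        obtain ⟨i, j, l, hij, hjl, h1, -, -⟩ := exists_triple hm k k k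
        rcases h1 with rfl | rfl | rfl
        · have h2 := hρ φ hφ k j l hij hjl [0] (by simp) (by simp)
          simpa using h2
        · have h2 := hρ φ hφ i k l hij hjl [1] (by simp) (by simp)
          have e : (([1] : List (Fin 3)).map ![C i, (C k)⁻¹, C l]).prod = (C k)⁻¹ := by simp
          rw [e] at h2
          have h3 := hinv _ (by rwa [map_inv] at h2)
          rwa [inv_inv] at h3
        · have h2 := hρ φ hφ i j k hij hjl [2] (by simp) (by simp)
          simpa using h2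
      rintro ⟨k, b⟩
      cases b
      · have h1 := hF _ (hinv _ (hk k))
        rw [← map_inv φ] at h1
        exact h1
      · exact hF _ (hk k)
    · intro i j k hij hjk u hu hl
      have h1 := hF _ (hρ φ hφ i j k hij hjk u hu hl)
      have h2 : (u.map fun n => tup3 (ρ.comp φ) C
          (![(i, true), (j, false), (k, true)] n)).prod =
          ((ρ (φ (u.map ![C i, (C j)⁻¹, C k]).prod) : GL (Fin 3) ℂ) : M3) := by
        have h3 := tup3_prod (ρ.comp φ) C (u.map ![(i, true), (j, false), (k, true)])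
        rw [List.map_map, List.map_map] at h3
        have h4 : ((fun l : Fin m × Bool => if l.2 then C l.1 else (C l.1)⁻¹) ∘
            ![(i, true), (j, false), (k, true)]) = ![C i, (C j)⁻¹, C k] := by
          funext n
          match n with
          | 0 => rfl
          | 1 => rfl
          | 2 => rfl
        rw [h4] at h3
        exact h3
      rw [h2]
      exact h1
  obtain ⟨s, hs⟩ := exists_words m
  have htr : ∀ w : List (Fin m × Bool), {z : ℂ | ∃ φ ∈ Γ,
      z = ((w.map (tup3 (ρ.comp φ) C)).prod).trace}.Finite := by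
    intro w
    refine (finite_word hm F w).subset ?_
    rintro z ⟨φ, hφ, rfl⟩
    exact ⟨_, hcond φ hφ, rfl⟩
  have hfin : (Set.univ.pi fun w : s => {z : ℂ | ∃ φ ∈ Γ,
      z = ((w.1.map (tup3 (ρ.comp φ) C)).prod).trace}).Finite := Set.Finite.pi fun w => htr w
  let ev : (G → ℂ) → s → ℂ := fun χ w =>
    χ (w.1.map fun l => if l.2 then C l.1 else (C l.1)⁻¹).prod
  have hev : ∀ φ : G →* G, ∀ w : s, ev (fun x => (ρ (φ x) : M3).trace) w =
      ((w.1.map (tup3 (ρ.comp φ) C)).prod).trace := by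
    intro φ w
    rw [tup3_prod]
    rfl
  refine Set.Finite.of_finite_image (f := ev) (hfin.subset ?_) ?_
  · rintro _ ⟨_, ⟨φ, hφ, rfl⟩, rfl⟩ w _
    exact ⟨φ, hφ, hev φ w⟩
  · rintro _ ⟨φ, hφ, rfl⟩ _ ⟨ψ, hψ, rfl⟩ h
    have h1 := hs (tup3 (ρ.comp φ) C) (tup3 (ρ.comp ψ) C) (fun w hw => by
      rw [← hev φ ⟨w, hw⟩, ← hev ψ ⟨w, hw⟩]
      exact congrFun h ⟨w, hw⟩)
    funext x
    obtain ⟨L, hL⟩ := exists_word3 C hC x
    have h2 := h1 L
    rw [tup3_prod, tup3_prod, ← hL] at h2
    exact h2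

end group

end Pool.Agent.Helper33.RT
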