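import Pool.Agent.Helper33.RT.HypWords
import Pool.Agent.Helper33.RT.Three

/-!
Local systems of rank three on hyperelliptic curves: if the eigenvalues are roots of unity along the
loops around two or four ramification points then the orbit of the character under the
hyperelliptic mapping class group is finite.
-/

namespace Pool.Agent.Helper33.RT

open Matrix

variable {n : ℕ}

/-- The automorphism of the fundamental group of the hyperelliptic curve is induced by an
automorphism of the orbifold fundamental group (i.e., it comes from a mapping class which commutes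
with the hyperelliptic involution). -/
def IsSymmetric (ψ : evenSub n ≃* evenSub n) : Prop :=
  ∃ φ : HypOrb n ≃* HypOrb n, ∀ y : evenSub n, ((ψ y : evenSub n) : HypOrb n) = φ y

/-- A simple closed curve around `k` ramification points: the image of `x_0 x_1 ⋯ x_{k-1}` under an
automorphism. -/
def IsLoopAround (k : ℕ) (y : evenSub n) : Prop :=
  ∃ ψ : evenSub n ≃* evenSub n, IsSymmetric ψ ∧ ∃ y₀ : evenSub n,
    (y₀ : HypOrb n) = ((List.ofFn fun i : Fin n => (pt i : HypOrb n)).take k).prod ∧ y = ψ y₀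

theorem sym_of_ev {φ : HypOrb n ≃* HypOrb n} (hφ : Ev φ) :
    ∃ ψ : evenSub n ≃* evenSub n, ∀ y : evenSub n, ((ψ y : evenSub n) : HypOrb n) = φ y := by
  refine ⟨{ toFun := fun y => ⟨φ y, (hφ y).2 y.2⟩
            invFun := fun y => ⟨φ.symm y, (hφ.symm y).2 y.2⟩
            left_inv := fun y => by
              apply Subtype.ext
              exact φ.symm_apply_apply _
            right_inv := fun y => by
              apply Subtype.ext
              exact φ.apply_symm_apply _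
            map_mul' := fun y z => by
              apply Subtype.ext
              exact map_mul φ _ _ }, fun y => rfl⟩

theorem IsSymmetric.comp {ψ ψ' : evenSub n ≃* evenSub n} (h : IsSymmetric ψ)
    (h' : IsSymmetric ψ') : IsSymmetric (ψ.trans ψ') := by
  obtain ⟨φ, hφ⟩ := h
  obtain ⟨φ', hφ'⟩ := h'
  refine ⟨φ.trans φ', fun y => ?_⟩
  show ((ψ' (ψ y) : evenSub n) : HypOrb n) = φ' (φ y)
  rw [hφ', hφ]

/-- the generators -/
def gC (n : ℕ) (hn : 0 < n) (i : Fin (n - 1)) : evenSub n :=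
  ⟨pt ⟨0, hn⟩ * pt ⟨i.1 + 1, by omega⟩, pt_mul_mem _ _⟩

theorem gC_coe (hn : 0 < n) (i : Fin (n - 1)) :
    ((gC n hn i : evenSub n) : HypOrb n) = lp n 0 * lp n (i.1 + 1) := by
  unfold lp gC
  rw [dif_pos hn, dif_pos (by omega)]

theorem closure_gC (hn : 0 < n) : Subgroup.closure (Set.range (gC n hn)) = ⊤ := by
  have h1 : evenSub n ≤ (Subgroup.closure (Set.range (gC n hn))).map (evenSub n).subtype := by
    unfold evenSub
    rw [Subgroup.closure_le]
    rintro _ ⟨i, j, rfl⟩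
    have h2 : ∀ i : Fin n, (pt ⟨0, hn⟩ * pt i : HypOrb n) ∈
        (Subgroup.closure (Set.range (gC n hn))).map (evenSub n).subtype := by
      intro i
      by_cases hi : i.1 = 0
      · have : i = ⟨0, hn⟩ := Fin.ext hi
        rw [this, pt_sq]
        exact Subgroup.one_mem _
      · refine ⟨gC n hn ⟨i.1 - 1, by omega⟩, Subgroup.subset_closure ⟨_, rfl⟩, ?_⟩
        have e : (⟨(⟨i.1 - 1, by omega⟩ : Fin (n - 1)).1 + 1, by simp only; omega⟩ : Fin n) = i :=
          Fin.ext (by simp only; omega)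
        show (pt ⟨0, hn⟩ * pt _ : HypOrb n) = _
        rw [e]
    have h3 := Subgroup.mul_mem _ (Subgroup.inv_mem _ (h2 i)) (h2 j)
    rw [_root_.mul_inv_rev, pt_inv, pt_inv, mul_assoc, ← mul_assoc (pt ⟨0, hn⟩), pt_sq, one_mul] at h3
    exact h3
  rw [eq_top_iff]
  intro y _
  obtain ⟨z, hz, hzy⟩ := h1 y.2
  have : z = y := Subtype.ext hzy
  rwa [← this]

theorem take_two (hn : 1 < n) : ((List.ofFn fun i : Fin n => (pt i : HypOrb n)).take 2).prod =
    lp n 0 * lp n 1 := by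
  obtain ⟨m, rfl⟩ : ∃ m, n = m + 2 := ⟨n - 2, by omega⟩
  rw [List.ofFn_succ, List.ofFn_succ]
  simp only [List.take_succ_cons, List.take_zero, List.prod_cons, List.prod_nil, mul_one]
  rfl

theorem take_four (hn : 3 < n) : ((List.ofFn fun i : Fin n => (pt i : HypOrb n)).take 4).prod =
    lp n 0 * (lp n 1 * (lp n 2 * lp n 3)) := by
  obtain ⟨m, rfl⟩ : ∃ m, n = m + 4 := ⟨n - 4, by omega⟩
  rw [List.ofFn_succ, List.ofFn_succ, List.ofFn_succ, List.ofFn_succ]
  simp only [List.take_succ_cons, List.take_zero, List.prod_cons, List.prod_nil, mul_one]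
  rfl

/-- **Rank three, hyperelliptic curves.** -/
theorem hyp_three (hn : 4 ≤ n) (ρ : evenSub n →* GL (Fin 3) ℂ)
    (hρ : ∀ y : evenSub n, IsLoopAround 2 y ∨ IsLoopAround 4 y → ∀ z : ℂ,
      (ρ y : Matrix (Fin 3) (Fin 3) ℂ).charpoly.IsRoot z → ∃ m : ℕ, 0 < m ∧ z ^ m = 1) :
    {χ : evenSub n → ℂ | ∃ ψ : evenSub n ≃* evenSub n, IsSymmetric ψ ∧
      χ = fun y => (ρ (ψ y) : Matrix (Fin 3) (Fin 3) ℂ).trace}.Finite := by
  have hn0 : 0 < n := by omega
  let Q : evenSub n → Prop := fun y => ∀ z : ℂ,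
    (ρ y : Matrix (Fin 3) (Fin 3) ℂ).charpoly.IsRoot z → ∃ m : ℕ, 0 < m ∧ z ^ m = 1
  have Qpow : ∀ y, Q y → ∀ k : ℕ, 0 < k → Q (y ^ k) := by
    intro y hy k hk z hz
    rw [map_pow, Units.val_pow_eq_pow_val, ← Matrix.mem_spectrum_iff_isRoot_charpoly,
      spectrum.map_pow_of_pos _ hk] at hz
    obtain ⟨c, hc, rfl⟩ := hz
    rw [Matrix.mem_spectrum_iff_isRoot_charpoly] at hc
    obtain ⟨m, hm, h1⟩ := hy c hc
    refine ⟨m, hm, ?_⟩
    simp only
    rw [← pow_mul, mul_comm, pow_mul, h1, one_pow]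
  have Qinv : ∀ y, Q y → Q y⁻¹ := by
    intro y hy z hz
    rw [← Matrix.mem_spectrum_iff_isRoot_charpoly] at hz
    have hz0 : z ≠ 0 := by
      rintro rfl
      rw [spectrum.zero_mem_iff] at hz
      exact hz (ρ y⁻¹).isUnit
    have h1 : z⁻¹ ∈ spectrum ℂ ((ρ y : GL (Fin 3) ℂ) : Matrix (Fin 3) (Fin 3) ℂ) := by
      have h2 := (spectrum.inv_mem_iff (R := ℂ) (r := Units.mk0 z hz0)
        (a := (ρ y⁻¹ : GL (Fin 3) ℂ))).1 (by simpa using hz)
      simpa using h2
    rw [Matrix.mem_spectrum_iff_isRoot_charpoly] at h1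
    obtain ⟨m, hm, h3⟩ := hy _ h1
    refine ⟨m, hm, ?_⟩
    rwa [inv_pow, inv_eq_one] at h3
  let P : HypOrb n → Prop := fun y => ∃ h : y ∈ evenSub n, ∀ ψ : evenSub n ≃* evenSub n,
    IsSymmetric ψ → Q (ψ ⟨y, h⟩)
  have hpow : ∀ y, P y → ∀ k : ℕ, 0 < k → P (y ^ k) := by
    rintro y ⟨h, hy⟩ k hk
    refine ⟨Subgroup.pow_mem _ h k, fun ψ hψ => ?_⟩
    have h1 := Qpow _ (hy ψ hψ) k hk
    rw [← map_pow] at h1
    exact h1
  have hinv : ∀ y, P y → P y⁻¹ := by
    rintro y ⟨h, hy⟩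
    refine ⟨Subgroup.inv_mem _ h, fun ψ hψ => ?_⟩
    have h1 := Qinv _ (hy ψ hψ)
    rw [← map_inv] at h1
    exact h1
  have haut : ∀ y, P y → ∀ φ : HypOrb n ≃* HypOrb n, Ev φ → P (φ y) := by
    rintro y ⟨h, hy⟩ φ hφ
    obtain ⟨ψ₀, hψ₀⟩ := sym_of_ev hφ
    refine ⟨(hφ y).2 h, fun ψ hψ => ?_⟩
    have h1 := hy (ψ₀.trans ψ) (IsSymmetric.comp ⟨φ, hψ₀⟩ hψ)
    have e : (⟨φ y, (hφ y).2 h⟩ : evenSub n) = ψ₀ ⟨y, h⟩ := Subtype.ext (hψ₀ ⟨y, h⟩).symm
    rw [e]
    exact h1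
  have hloop : ∀ k : ℕ, (k = 2 ∨ k = 4) →
      ((List.ofFn fun i : Fin n => (pt i : HypOrb n)).take k).prod ∈ evenSub n →
      P ((List.ofFn fun i : Fin n => (pt i : HypOrb n)).take k).prod := by
    intro k hk h
    refine ⟨h, fun ψ hψ => ?_⟩
    refine hρ _ ?_
    rcases hk with rfl | rfl
    · exact Or.inl ⟨ψ, hψ, ⟨_, h⟩, rfl, rfl⟩
    · exact Or.inr ⟨ψ, hψ, ⟨_, h⟩, rfl, rfl⟩
  have hmem : ∀ i j, i < n → j < n → lp n i * lp n j ∈ evenSub n := by
    intro i j hi hj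
    unfold lp
    rw [dif_pos hi, dif_pos hj]
    exact pt_mul_mem _ _
  have h2 : P (lp n 0 * lp n 1) := by
    rw [← take_two (by omega)]
    refine hloop 2 (Or.inl rfl) ?_
    rw [take_two (by omega)]
    exact hmem 0 1 (by omega) (by omega)
  have h4 : P (lp n 0 * (lp n 1 * (lp n 2 * lp n 3))) := by
    rw [← take_four (by omega)]
    refine hloop 4 (Or.inr rfl) ?_
    rw [take_four (by omega), ← mul_assoc]
    exact Subgroup.mul_mem _ (hmem 0 1 (by omega) (by omega)) (hmem 2 3 (by omega) (by omega))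
  have hfin := three_finite (m := n - 1) (by omega) (gC n hn0) (closure_gC hn0) ρ
    {ψ | ∃ ψ' : evenSub n ≃* evenSub n, IsSymmetric ψ' ∧ ψ = ψ'.toMonoidHom} (by
      rintro _ ⟨ψ, hψ, rfl⟩ i j k hij hjk w hw hl
      obtain ⟨h, hg⟩ := good_every (P := P) (by omega) hpow hinv haut h2 h4 (i.1 + 1) (j.1 + 1)
        (k.1 + 1) (by omega) (by have := Fin.lt_def.1 hij; omega)
        (by have := Fin.lt_def.1 hjk; omega) (by omega) w hw hl
      have h5 := hg ψ hψ
      have e : (⟨_, h⟩ : evenSub n) = (w.map ![gC n hn0 i, (gC n hn0 j)⁻¹, gC n hn0 k]).prod := by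
        apply Subtype.ext
        rw [Subgroup.val_list_prod, List.map_map]
        show (w.map ![lp n 0 * lp n (i.1 + 1), (lp n 0 * lp n (j.1 + 1))⁻¹,
          lp n 0 * lp n (k.1 + 1)]).prod = _
        congr 2
        funext t
        match t with
        | 0 => exact (gC_coe hn0 i).symm
        | 1 =>
          show (lp n 0 * lp n (j.1 + 1))⁻¹ = (((gC n hn0 j)⁻¹ : evenSub n) : HypOrb n)
          rw [Subgroup.coe_inv, gC_coe]
        | 2 => exact (gC_coe hn0 k).symm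
      rw [e] at h5
      exact h5)
  refine hfin.subset ?_
  rintro χ ⟨ψ, hψ, rfl⟩
  exact ⟨ψ.toMonoidHom, ⟨ψ, hψ, rfl⟩, rfl⟩

end Pool.Agent.Helper33.RT
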