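import Pool.Agent.Helper33.RT.Hyp

/-!
Words in the loops around the ramification points of a hyperelliptic curve which are images of loops
around two or four ramification points.
-/

namespace Pool.Agent.Helper33.RT

section general

variable {G : Type*} [Group G] {P : G → Prop}

/-- Sixteen words suffice. -/
theorem good_aux' (hpow : ∀ y, P y → ∀ n : ℕ, 0 < n → P (y ^ n))
    (hrot : ∀ x y : G, P (x * y) → P (y * x)) (f : Fin 3 → G) (h0 : P (f 0)) (h1 : P (f 1))
    (h2 : P (f 2)) (h01 : P (f 0 * f 1)) (h02 : P (f 0 * f 2)) (h12 : P (f 1 * f 2))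
    (h001 : P (f 0 * (f 0 * f 1))) (h002 : P (f 0 * (f 0 * f 2))) (h011 : P (f 0 * (f 1 * f 1)))
    (h112 : P (f 1 * (f 1 * f 2))) (h022 : P (f 0 * (f 2 * f 2))) (h122 : P (f 1 * (f 2 * f 2)))
    (h012 : P (f 0 * (f 1 * f 2))) (h021 : P (f 0 * (f 2 * f 1)))
    (w : List (Fin 3)) (hw : w ≠ []) (hl : w.length ≤ 3) : P (w.map f).prod := by
  have hrot3 : ∀ x y z : G, P (x * (y * z)) → P (y * (z * x)) := by
    intro x y z h
    have h1 := hrot _ _ h
    rwa [mul_assoc] at h1
  have h00 : ∀ i, P (f i) → P (f i * f i) := fun i hi => by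
    have := hpow _ hi 2 two_pos
    rwa [pow_two] at this
  have h000 : ∀ i, P (f i) → P (f i * (f i * f i)) := fun i hi => by
    have := hpow _ hi 3 three_pos
    rwa [pow_succ, pow_two, mul_assoc] at this
  have hall : ∀ i, P (f i) := by
    intro i
    match i with
    | 0 => exact h0
    | 1 => exact h1
    | 2 => exact h2
  have hall2 : ∀ i j, P (f i * f j) := by
    intro i j
    match i, j with
    | 0, 0 => exact h00 0 h0
    | 0, 1 => exact h01
    | 0, 2 => exact h02
    | 1, 0 => exact hrot _ _ h01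
    | 1, 1 => exact h00 1 h1
    | 1, 2 => exact h12
    | 2, 0 => exact hrot _ _ h02
    | 2, 1 => exact hrot _ _ h12
    | 2, 2 => exact h00 2 h2
  have hall3 : ∀ i j k, P (f i * (f j * f k)) := by
    intro i j k
    match i, j, k with
    | 0, 0, 0 => exact h000 0 h0
    | 0, 0, 1 => exact h001
    | 0, 0, 2 => exact h002
    | 0, 1, 0 => exact hrot3 _ _ _ h001
    | 0, 1, 1 => exact h011
    | 0, 1, 2 => exact h012
    | 0, 2, 0 => exact hrot3 _ _ _ h002
    | 0, 2, 1 => exact h021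
    | 0, 2, 2 => exact h022
    | 1, 0, 0 => exact hrot3 _ _ _ (hrot3 _ _ _ h001)
    | 1, 0, 1 => exact hrot3 _ _ _ (hrot3 _ _ _ h011)
    | 1, 0, 2 => exact hrot3 _ _ _ (hrot3 _ _ _ h021)
    | 1, 1, 0 => exact hrot3 _ _ _ h011
    | 1, 1, 1 => exact h000 1 h1
    | 1, 1, 2 => exact h112
    | 1, 2, 0 => exact hrot3 _ _ _ h012
    | 1, 2, 1 => exact hrot3 _ _ _ h112
    | 1, 2, 2 => exact h122
    | 2, 0, 0 => exact hrot3 _ _ _ (hrot3 _ _ _ h002)
    | 2, 0, 1 => exact hrot3 _ _ _ (hrot3 _ _ _ h012)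
    | 2, 0, 2 => exact hrot3 _ _ _ (hrot3 _ _ _ h022)
    | 2, 1, 0 => exact hrot3 _ _ _ h021
    | 2, 1, 1 => exact hrot3 _ _ _ (hrot3 _ _ _ h112)
    | 2, 1, 2 => exact hrot3 _ _ _ (hrot3 _ _ _ h122)
    | 2, 2, 0 => exact hrot3 _ _ _ h022
    | 2, 2, 1 => exact hrot3 _ _ _ h122
    | 2, 2, 2 => exact h000 2 h2
  match w, hw, hl with
  | [i], _, _ =>
    have := hall i
    simpa using this
  | [i, j], _, _ =>
    have := hall2 i j
    simpa using this
  | [i, j, k], _, _ =>
    have := hall3 i j k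
    simpa using this
  | _ :: _ :: _ :: _ :: _, _, hl =>
    simp only [List.length_cons] at hl
    omega

end general

section words

variable {n : ℕ} {P : HypOrb n → Prop}

/-- the loop with a number as index -/
def lp (n : ℕ) (i : ℕ) : HypOrb n := if h : i < n then pt ⟨i, h⟩ else 1

theorem lp_sq (i : ℕ) : lp n i * lp n i = 1 := by
  unfold lp
  split_ifs
  · exact pt_sq _
  · exact mul_one 1

theorem lp_inv (i : ℕ) : (lp n i)⁻¹ = lp n i := inv_eq_of_mul_eq_one_left (lp_sq i)

theorem exists_tw' (k : ℕ) (hk : k + 1 < n) : ∃ φ : HypOrb n ≃* HypOrb n, Ev φ ∧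
    φ (lp n k) = lp n (k + 1) ∧ φ (lp n (k + 1)) = lp n (k + 1) * lp n k * lp n (k + 1) ∧
    ∀ i, i ≠ k → i ≠ k + 1 → φ (lp n i) = lp n i := by
  obtain ⟨φ, h0, h1, h2, h3⟩ := exists_twist (n := n) k hk
  have e1 : lp n k = pt ⟨k, by omega⟩ := dif_pos _
  have e2 : lp n (k + 1) = pt ⟨k + 1, hk⟩ := dif_pos _
  refine ⟨φ, h0, by rw [e1, e2, h1], by rw [e1, e2, h2], ?_⟩
  intro i h4 h5
  unfold lp
  split_ifs with h
  · exact h3 _ h4 h5
  · exact map_one φ

/-- the words we want -/
def Good3 (P : HypOrb n → Prop) (i j k : ℕ) : Prop :=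
  ∀ w : List (Fin 3), w ≠ [] → w.length ≤ 3 →
    P (w.map ![lp n 0 * lp n i, (lp n 0 * lp n j)⁻¹, lp n 0 * lp n k]).prod

theorem Good3.aut (haut : ∀ y, P y → ∀ φ : HypOrb n ≃* HypOrb n, Ev φ → P (φ y)) {i j k i' j' k' : ℕ}
    (h : Good3 P i j k) (φ : HypOrb n ≃* HypOrb n) (hφ : Ev φ) (h0 : φ (lp n 0) = lp n 0)
    (hi : φ (lp n i) = lp n i') (hj : φ (lp n j) = lp n j') (hk : φ (lp n k) = lp n k') :
    Good3 P i' j' k' := by
  intro w hw hl
  have h1 := haut _ (h w hw hl) φ hφ
  rw [map_list_prod, List.map_map] at h1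
  have e : (φ ∘ ![lp n 0 * lp n i, (lp n 0 * lp n j)⁻¹, lp n 0 * lp n k]) =
      ![lp n 0 * lp n i', (lp n 0 * lp n j')⁻¹, lp n 0 * lp n k'] := by
    funext t
    match t with
    | 0 =>
      show φ (lp n 0 * lp n i) = lp n 0 * lp n i'
      rw [map_mul, h0, hi]
    | 1 =>
      show φ (lp n 0 * lp n j)⁻¹ = (lp n 0 * lp n j')⁻¹
      rw [map_inv, map_mul, h0, hj]
    | 2 =>
      show φ (lp n 0 * lp n k) = lp n 0 * lp n k'
      rw [map_mul, h0, hk]
  rwa [e] at h1

/-- cancellation of squares -/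
theorem lp_cancel (i : ℕ) (y : HypOrb n) : lp n i * (lp n i * y) = y := by
  rw [← mul_assoc, lp_sq, one_mul]

theorem good_base (hn : 3 < n) (hpow : ∀ y, P y → ∀ n : ℕ, 0 < n → P (y ^ n))
    (hinv : ∀ y, P y → P y⁻¹) (haut : ∀ y, P y → ∀ φ : HypOrb n ≃* HypOrb n, Ev φ → P (φ y))
    (h2 : P (lp n 0 * lp n 1)) (h4 : P (lp n 0 * (lp n 1 * (lp n 2 * lp n 3)))) :
    Good3 P 1 2 3 := by
  have hrot : ∀ x y : HypOrb n, P (x * y) → P (y * x) := by
    intro x y h
    have h1 := haut _ h (MulAut.conj y) (ev_conj y)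
    have e : MulAut.conj y (x * y) = y * x := by
      rw [MulAut.conj_apply]
      group
    rwa [e] at h1
  have hrot3 : ∀ x y z : HypOrb n, P (x * (y * z)) → P (y * (z * x)) := by
    intro x y z h
    have h1 := hrot _ _ h
    rwa [mul_assoc] at h1
  obtain ⟨τ0, v0, a0, a1, a⟩ := exists_tw' (n := n) 0 (by omega)
  obtain ⟨τ1, v1, b0, b1, b⟩ := exists_tw' (n := n) 1 (by omega)
  obtain ⟨τ2, v2, c0, c1, c⟩ := exists_tw' (n := n) 2 (by omega)
  simp only [zero_add, Nat.reduceAdd] at a0 a1 a b0 b1 b c0 c1 c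
  have a2 := a 2 (by omega) (by omega)
  have a3 := a 3 (by omega) (by omega)
  have b2 := b 0 (by omega) (by omega)
  have b3 := b 3 (by omega) (by omega)
  have c2 := c 0 (by omega) (by omega)
  have c3 := c 1 (by omega) (by omega)
  have a0' : τ0.symm (lp n 1) = lp n 0 := by rw [← a0, MulEquiv.symm_apply_apply]
  have a1' : τ0.symm (lp n 0) = lp n 0 * (lp n 1 * lp n 0) := by
    apply τ0.injective
    rw [MulEquiv.apply_symm_apply, map_mul, map_mul, a0, a1]
    simp only [mul_assoc, lp_cancel, lp_sq, mul_one]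
  have a2' : τ0.symm (lp n 2) = lp n 2 := by
    apply τ0.injective
    rw [MulEquiv.apply_symm_apply, a2]
  have a3' : τ0.symm (lp n 3) = lp n 3 := by
    apply τ0.injective
    rw [MulEquiv.apply_symm_apply, a3]
  have c0' : τ2.symm (lp n 3) = lp n 2 := by rw [← c0, MulEquiv.symm_apply_apply]
  have c1' : τ2.symm (lp n 2) = lp n 2 * (lp n 3 * lp n 2) := by
    apply τ2.injective
    rw [MulEquiv.apply_symm_apply, map_mul, map_mul, c0, c1]
    simp only [mul_assoc, lp_cancel, lp_sq, mul_one]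
  have c2' : τ2.symm (lp n 0) = lp n 0 := by
    apply τ2.injective
    rw [MulEquiv.apply_symm_apply, c2]
  -- pairs
  have p02 : P (lp n 0 * lp n 2) := by
    have := haut _ h2 τ1 v1
    rwa [map_mul, b2, b0] at this
  have p03 : P (lp n 0 * lp n 3) := by
    have := haut _ p02 τ2 v2
    rwa [map_mul, c2, c0] at this
  have p12 : P (lp n 1 * lp n 2) := by
    have := haut _ p02 τ0 v0
    rwa [map_mul, a0, a2] at this
  have p13 : P (lp n 1 * lp n 3) := by
    have := haut _ p03 τ0 v0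
    rwa [map_mul, a0, a3] at this
  have p23 : P (lp n 2 * lp n 3) := by
    have := haut _ p13 τ1 v1
    rwa [map_mul, b0, b3] at this
  have hcj : ∀ (i : ℕ) (y : HypOrb n), P y → P (lp n i * (y * lp n i)) := by
    intro i y hy
    have := haut _ hy (MulAut.conj (lp n i)) (ev_conj _)
    rwa [MulAut.conj_apply, lp_inv, mul_assoc] at this
  have q1 : P (lp n 0 * (lp n 2 * (lp n 1 * lp n 2))) := by
    have := haut _ p02 τ1 v1
    simpa only [map_mul, b2, b1, mul_assoc] using this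
  have q2 : P (lp n 0 * (lp n 1 * (lp n 0 * lp n 3))) := by
    have := haut _ p03 τ0.symm v0.symm
    simpa only [map_mul, a1', a3', mul_assoc] using this
  have e1 : (lp n 0 * lp n 2)⁻¹ = lp n 2 * lp n 0 := by rw [mul_inv_rev, lp_inv, lp_inv]
  refine good_aux' hpow hrot ![lp n 0 * lp n 1, (lp n 0 * lp n 2)⁻¹, lp n 0 * lp n 3]
    h2 (hinv _ p02) p03 ?_ ?_ ?_ ?_ ?_ ?_ ?_ ?_ ?_ ?_ ?_
  all_goals
    simp only [Matrix.cons_val_zero, Matrix.cons_val_one, Matrix.cons_val]
    try rw [e1]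
    simp only [mul_assoc, lp_cancel]
  · have := hcj 0 _ p12
    simpa only [mul_assoc, lp_cancel, lp_sq, mul_one] using this
  · exact q2
  · exact p23
  · have := haut _ p12 τ0 v0
    rw [map_mul, a1, a2] at this
    have := hcj 0 _ this
    simpa only [mul_assoc, lp_cancel, lp_sq, mul_one] using this
  · have := haut _ q2 τ0.symm v0.symm
    simpa only [map_mul, a0', a1', a3', mul_assoc, lp_cancel, lp_sq, mul_one] using this
  · have := hcj 0 _ (hcj 2 _ (hinv _ q1))
    simpa only [mul_inv_rev, lp_inv, mul_assoc, lp_cancel, lp_sq, mul_one] using this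
  · have := haut _ p02 τ2.symm v2.symm
    rw [map_mul, c2', c1'] at this
    have := hcj 2 _ this
    simpa only [mul_assoc, lp_cancel, lp_sq, mul_one] using this
  · have := haut _ (haut _ q1 τ2 v2) τ0.symm v0.symm
    simpa only [map_mul, c2, c0, c3, a0', a1', a3', mul_assoc, lp_cancel, lp_sq, mul_one] using
      this
  · have := haut _ p03 τ2 v2
    rw [map_mul, c2, c1] at this
    have := hcj 3 _ (hinv _ this)
    simpa only [mul_inv_rev, lp_inv, mul_assoc, lp_cancel, lp_sq, mul_one] using this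
  · exact h4
  · have := hrot (lp n 0 * lp n 1) (lp n 2 * lp n 3) (by rwa [mul_assoc])
    have := hcj 0 _ (hinv _ this)
    simpa only [mul_inv_rev, lp_inv, mul_assoc, lp_cancel, lp_sq, mul_one] using this

/-- All short words are good. -/
theorem good_every (hn : 3 < n) (hpow : ∀ y, P y → ∀ n : ℕ, 0 < n → P (y ^ n))
    (hinv : ∀ y, P y → P y⁻¹) (haut : ∀ y, P y → ∀ φ : HypOrb n ≃* HypOrb n, Ev φ → P (φ y))
    (h2 : P (lp n 0 * lp n 1)) (h4 : P (lp n 0 * (lp n 1 * (lp n 2 * lp n 3))))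
    (i j k : ℕ) (hi : 0 < i) (hij : i < j) (hjk : j < k) (hk : k < n) : Good3 P i j k := by
  have h1 : ∀ k, 3 ≤ k → k < n → Good3 P 1 2 k := by
    intro k hk1 hk2
    induction k, hk1 using Nat.le_induction with
    | base => exact good_base hn hpow hinv haut h2 h4
    | succ k hk ih =>
      obtain ⟨φ, k0, k1, k2, k3⟩ := exists_tw' (n := n) k (by omega)
      exact (ih (by omega)).aut haut φ k0 (k3 0 (by omega) (by omega)) (k3 1 (by omega) (by omega))
        (k3 2 (by omega) (by omega)) k1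
  have h2 : ∀ j, 2 ≤ j → j < k → Good3 P 1 j k := by
    intro j hj1 hj2
    induction j, hj1 using Nat.le_induction with
    | base => exact h1 k (by omega) hk
    | succ j hj ih =>
      obtain ⟨φ, k0, k1, k2, k3⟩ := exists_tw' (n := n) j (by omega)
      exact (ih (by omega)).aut haut φ k0 (k3 0 (by omega) (by omega)) (k3 1 (by omega) (by omega))
        k1 (k3 k (by omega) (by omega))
  induction i, hi using Nat.le_induction with
  | base => exact h2 j (by omega) hjk
  | succ i hi ih =>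
    obtain ⟨φ, k0, k1, k2, k3⟩ := exists_tw' (n := n) i (by omega)
    exact (ih (by omega)).aut haut φ k0 (k3 0 (by omega) (by omega)) k1
      (k3 j (by omega) (by omega)) (k3 k (by omega) (by omega))

end words

end Pool.Agent.Helper33.RT
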